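import Mathlib

open Finset

namespace Pool.Agent.Lead.RowLocal

variable {K : Type*} [Field K]

/-- A multilinear map that vanishes as soon as one argument lies in `W` only depends on its
arguments modulo `W`. -/
lemma mlin_congr {p : ℕ} {V : Type*} [AddCommGroup V] [Module K V] (W : Submodule K V)
    (F : V [⋀^Fin p]→ₗ[K] K) (hF : ∀ y i w, w ∈ W → F (Function.update y i w) = 0)
    (x x' : Fin p → V) (hx : ∀ i, x i - x' i ∈ W) : F x = F x' := by
  classical
  have key : ∀ s : Finset (Fin p), F (s.piecewise x' x) = F x := by
    intro s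
    induction s using Finset.induction_on with
    | empty => simp
    | insert i s hi ih =>
      rw [Finset.piecewise_insert]
      have h1 : s.piecewise x' x = Function.update (s.piecewise x' x) i (x' i + (x i - x' i)) := by
        rw [add_sub_cancel]
        symm
        rw [Function.update_eq_iff]
        refine ⟨?_, fun _ _ => rfl⟩
        simp [hi]
      rw [← ih]
      conv_rhs => rw [h1]
      rw [F.map_update_add, hF _ _ _ (hx i), add_zero]
  have := key Finset.univ
  simpa using this.symm

/-- The determinant as a function of the rows with index in `A`. -/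
noncomputable def rowForm {S : Type*} [Fintype S] [DecidableEq S] (A : Finset S)
    (R : S → S → K) : (S → K) [⋀^Fin A.card]→ₗ[K] K where
  toFun x := Matrix.detRowAlternating
    (fun s => if h : s ∈ A then x (A.equivFin ⟨s, h⟩) else R s)
  map_update_add' := by
    intro inst x i u v
    have hu : ∀ w : S → K, (fun s => if h : s ∈ A then
        (@Function.update (Fin A.card) (fun _ => S → K) inst x i w) (A.equivFin ⟨s, h⟩) else R s)
        = Function.update (fun s => if h : s ∈ A then x (A.equivFin ⟨s, h⟩) else R s)
          ((A.equivFin.symm i : A) : S) w := by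
      intro w
      funext s
      by_cases hs : s = ((A.equivFin.symm i : A) : S)
      · subst hs
        simp
      · rw [Function.update_of_ne hs]
        by_cases h : s ∈ A
        · have : A.equivFin ⟨s, h⟩ ≠ i := by
            intro e
            apply hs
            rw [← e]; simp
          simp [h, Function.update_of_ne this]
        · simp [h]
    rw [hu, hu, hu, Matrix.detRowAlternating.map_update_add]
  map_update_smul' := by
    intro inst x i c u
    have hu : ∀ w : S → K, (fun s => if h : s ∈ A then
        (@Function.update (Fin A.card) (fun _ => S → K) inst x i w) (A.equivFin ⟨s, h⟩) else R s)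
        = Function.update (fun s => if h : s ∈ A then x (A.equivFin ⟨s, h⟩) else R s)
          ((A.equivFin.symm i : A) : S) w := by
      intro w
      funext s
      by_cases hs : s = ((A.equivFin.symm i : A) : S)
      · subst hs
        simp
      · rw [Function.update_of_ne hs]
        by_cases h : s ∈ A
        · have : A.equivFin ⟨s, h⟩ ≠ i := by
            intro e
            apply hs
            rw [← e]; simp
          simp [h, Function.update_of_ne this]
        · simp [h]
    rw [hu, hu, Matrix.detRowAlternating.map_update_smul]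
  map_eq_zero_of_eq' := by
    intro v i j hv hij
    refine Matrix.detRowAlternating.map_eq_zero_of_eq _
      (i := ((A.equivFin.symm i : A) : S)) (j := ((A.equivFin.symm j : A) : S)) ?_ ?_
    · simp [hv]
    · intro e
      exact hij (A.equivFin.symm.injective (Subtype.ext e))

lemma rowForm_apply {S : Type*} [Fintype S] [DecidableEq S] (A : Finset S)
    (R : S → S → K) (x : Fin A.card → S → K) :
    rowForm A R x = Matrix.det (fun s => if h : s ∈ A then x (A.equivFin ⟨s, h⟩) else R s) := rfl

lemma rowForm_update {S : Type*} [Fintype S] [DecidableEq S] (A : Finset S)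
    (R : S → S → K) (x : Fin A.card → S → K) (i : Fin A.card) (s : S) (hs : s ∉ A) :
    rowForm A R (Function.update x i (R s)) = 0 := by
  rw [rowForm_apply]
  refine Matrix.det_zero_of_row_eq (i := ((A.equivFin.symm i : A) : S)) (j := s) ?_ ?_
  · rintro rfl
    exact hs (A.equivFin.symm i).2
  · simp [hs]

/-- Factorisation of a determinant whose rows depend on `a` only, on `b` only, or on nothing. -/
theorem det_factor {S : Type*} [Fintype S] [DecidableEq S] {α β : Type*}
    (D : α → β → Matrix S S K) (A B : Finset S)
    (hA : ∀ s ∈ A, ∀ a b b', D a b s = D a b' s)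
    (hB : ∀ s ∈ B, ∀ a a' b, D a b s = D a' b s)
    (hC : ∀ s, s ∉ A → s ∉ B → ∀ a a' b b', D a b s = D a' b' s) :
    ∃ (d : ℕ) (f : α → Fin d → K) (g : β → Fin d → K), d ≤ 2 ^ (A.card + B.card) ∧
      ∀ a b, (D a b).det = ∑ i, f a i * g b i := by
  classical
  by_cases hα : Nonempty α
  swap
  · exact ⟨0, fun a => (hα ⟨a⟩).elim, fun _ => Fin.elim0, Nat.zero_le _,
      fun a => (hα ⟨a⟩).elim⟩
  by_cases hβ : Nonempty β
  swap
  · exact ⟨0, fun _ => Fin.elim0, fun b => (hβ ⟨b⟩).elim, Nat.zero_le _,
      fun _ b => (hβ ⟨b⟩).elim⟩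
  obtain ⟨a0⟩ := hα
  obtain ⟨b0⟩ := hβ
  let C : Type _ := {s : S // s ∉ A ∧ s ∉ B}
  let w : C → (S → K) := fun s => D a0 b0 s.1
  by_cases hli : LinearIndependent K w
  swap
  · refine ⟨0, fun _ => Fin.elim0, fun _ => Fin.elim0, Nat.zero_le _, fun a b => ?_⟩
    simp only [Finset.univ_eq_empty, Finset.sum_empty]
    by_contra hdet
    have hu : IsUnit (D a b) := (Matrix.isUnit_iff_isUnit_det _).2 (isUnit_iff_ne_zero.2 hdet)
    have h1 : LinearIndependent K (D a b).row := Matrix.linearIndependent_rows_iff_isUnit.2 hu
    have h2 : LinearIndependent K (fun s : C => (D a b).row s.1) :=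
      h1.comp _ Subtype.val_injective
    apply hli
    have h3 : w = (fun s : C => (D a b).row s.1) := by
      funext s
      exact hC s.1 s.2.1 s.2.2 _ _ _ _
    rw [h3]; exact h2
  let W : Submodule K (S → K) := Submodule.span K (Set.range w)
  have hW : Module.finrank K W = Fintype.card C := finrank_span_eq_card hli
  have hcardC : Fintype.card S ≤ Fintype.card C + (A.card + B.card) := by
    have h1 : Fintype.card C = (Finset.univ.filter (fun s : S => s ∉ A ∧ s ∉ B)).card :=
      Fintype.card_subtype _
    rw [h1]
    have h2 : (Finset.univ : Finset S) ⊆ (Finset.univ.filter (fun s : S => s ∉ A ∧ s ∉ B)) ∪ (A ∪ B) := by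
      intro s _
      simp only [Finset.mem_union, Finset.mem_filter, Finset.mem_univ, true_and]
      tauto
    calc Fintype.card S = (Finset.univ : Finset S).card := rfl
      _ ≤ _ := Finset.card_le_card h2
      _ ≤ _ := Finset.card_union_le _ _
      _ ≤ _ := by gcongr; exact Finset.card_union_le _ _
  have hQ : Module.finrank K ((S → K) ⧸ W) ≤ A.card + B.card := by
    have h1 := Submodule.finrank_quotient_add_finrank W
    rw [hW, Module.finrank_fintype_fun_eq_card] at h1
    omega
  obtain ⟨σ, hσ⟩ := W.mkQ.exists_rightInverse_of_surjective (by simp [Submodule.range_mkQ])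
  have hσ' : ∀ v : S → K, v - σ (W.mkQ v) ∈ W := by
    intro v
    have h1 : W.mkQ (v - σ (W.mkQ v)) = 0 := by
      rw [map_sub]
      have : W.mkQ (σ (W.mkQ v)) = (W.mkQ ∘ₗ σ) (W.mkQ v) := rfl
      rw [this, hσ]; simp
    exact (Submodule.Quotient.mk_eq_zero W).1 h1
  have hFW : ∀ b y i v, v ∈ W → rowForm A (D a0 b) (Function.update y i v) = 0 := by
    intro b y i v hv
    have hsub : W ≤ LinearMap.ker ((rowForm A (D a0 b)).toMultilinearMap.toLinearMap y i) := by
      rw [Submodule.span_le]
      rintro _ ⟨s, rfl⟩
      simp only [SetLike.mem_coe, LinearMap.mem_ker, MultilinearMap.toLinearMap_apply]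
      have h1 : w s = D a0 b s.1 := hC s.1 s.2.1 s.2.2 _ _ _ _
      rw [h1]
      exact rowForm_update A (D a0 b) y i s.1 s.2.1
    exact hsub hv
  let G : β → ((S → K) ⧸ W) [⋀^Fin A.card]→ₗ[K] K := fun b => (rowForm A (D a0 b)).compLinearMap σ
  let T : β → (⋀[K]^A.card ((S → K) ⧸ W)) →ₗ[K] K := fun b =>
    exteriorPower.alternatingMapLinearEquiv (G b)
  let e : α → (⋀[K]^A.card ((S → K) ⧸ W)) := fun a =>
    exteriorPower.ιMulti K A.card (fun i => W.mkQ (D a b0 ((A.equivFin.symm i : A) : S)))
  have hdet : ∀ a b, (D a b).det = T b (e a) := by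
    intro a b
    have h1 : T b (e a) = rowForm A (D a0 b)
        (fun i => σ (W.mkQ (D a b0 ((A.equivFin.symm i : A) : S)))) := by
      simp only [T, e, exteriorPower.alternatingMapLinearEquiv_apply_ιMulti, G]
      rfl
    rw [h1, ← mlin_congr W (rowForm A (D a0 b)) (hFW b)
      (fun i => D a b0 ((A.equivFin.symm i : A) : S)) _ (fun i => hσ' _)]
    refine Eq.trans ?_ (rowForm_apply A (D a0 b)
      (fun i => D a b0 ((A.equivFin.symm i : A) : S))).symm
    refine congrArg Matrix.det ?_
    funext s
    by_cases h : s ∈ A
    · simp only [h, dif_pos, Equiv.symm_apply_apply]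
      exact hA s h _ _ _
    · simp only [h, dif_neg, not_false_iff]
      by_cases h' : s ∈ B
      · exact hB s h' _ _ _
      · exact hC s h h' _ _ _ _
  let bas := Module.finBasis K (⋀[K]^A.card ((S → K) ⧸ W))
  refine ⟨Module.finrank K (⋀[K]^A.card ((S → K) ⧸ W)), fun a i => bas.repr (e a) i,
    fun b i => T b (bas i), ?_, fun a b => ?_⟩
  · rw [exteriorPower.finrank_eq]
    calc (Module.finrank K ((S → K) ⧸ W)).choose A.card
        ≤ 2 ^ (Module.finrank K ((S → K) ⧸ W)) := Nat.choose_le_two_pow _ _
      _ ≤ 2 ^ (A.card + B.card) := Nat.pow_le_pow_right (by norm_num) hQ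
  · rw [hdet]
    conv_lhs => rw [← bas.sum_repr (e a)]
    rw [map_sum]
    refine Finset.sum_congr rfl fun i _ => ?_
    rw [map_smul, smul_eq_mul]

end Pool.Agent.Lead.RowLocal
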