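import Mathlib
import Pool.Agent.Lead.RowLocal

open Finset

namespace Pool.Agent.Lead.RankAdditive

variable {K : Type*} [Field K]

/-- Factorisation of the determinant of `C + PA * QA a + PB * QB b`. -/
theorem det_factor_add {S : Type*} [Fintype S] [DecidableEq S] {α β : Type*}
    {p q : Type*} [Fintype p] [Fintype q] [DecidableEq p] [DecidableEq q]
    (C : Matrix S S K) (PA : Matrix S p K) (QA : α → Matrix p S K)
    (PB : Matrix S q K) (QB : β → Matrix q S K) :
    ∃ (d : ℕ) (f : α → Fin d → K) (g : β → Fin d → K),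
      d ≤ 2 ^ (Fintype.card p + Fintype.card q) ∧
      ∀ a b, (C + PA * QA a + PB * QB b).det = ∑ i, f a i * g b i := by
  classical
  let D : α → β → Matrix (S ⊕ (p ⊕ q)) (S ⊕ (p ⊕ q)) K := fun a b =>
    Matrix.fromBlocks C (Matrix.fromCols PA PB) (-(Matrix.fromRows (QA a) (QB b))) 1
  have hD : ∀ a b, (C + PA * QA a + PB * QB b).det = (D a b).det := by
    intro a b
    simp only [D]
    rw [Matrix.det_fromBlocks_one₂₂, Matrix.mul_neg, Matrix.fromCols_mul_fromRows, sub_neg_eq_add,
      add_assoc]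
  obtain ⟨d, f, g, hd, hfg⟩ := RowLocal.det_factor (K := K) D
    (univ.image (fun x : p => (Sum.inr (Sum.inl x) : S ⊕ (p ⊕ q))))
    (univ.image (fun x : q => (Sum.inr (Sum.inr x) : S ⊕ (p ⊕ q))))
    (by
      intro s hs a b b'
      rw [mem_image] at hs
      obtain ⟨x, _, rfl⟩ := hs
      funext y
      rcases y with y | y <;> rfl)
    (by
      intro s hs a a' b
      rw [mem_image] at hs
      obtain ⟨x, _, rfl⟩ := hs
      funext y
      rcases y with y | y <;> rfl)
    (by
      intro s hsA hsB a a' b b'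
      rcases s with s | s | s
      · funext y
        rcases y with y | y <;> rfl
      · exact absurd (mem_image_of_mem _ (mem_univ s)) hsA
      · exact absurd (mem_image_of_mem _ (mem_univ s)) hsB)
  refine ⟨d, f, g, ?_, fun a b => by rw [hD, hfg]⟩
  refine hd.trans (Nat.pow_le_pow_right (by norm_num) (Nat.add_le_add ?_ ?_))
  · exact Finset.card_image_le
  · exact Finset.card_image_le

/-- The same for sums over sets of indices. -/
theorem det_factor_sum {S : Type*} [Fintype S] [DecidableEq S] {α β : Type*} {n : ℕ}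
    (τ : Fin n → ℕ) (C : Matrix S S K) (P : ∀ i : Fin n, Matrix S (Fin (τ i)) K)
    (R : α → β → ∀ i : Fin n, Matrix (Fin (τ i)) S K) (I J : Finset (Fin n))
    (hIJ : Disjoint I J)
    (hI : ∀ i ∈ I, ∀ a b b', R a b i = R a b' i)
    (hJ : ∀ i ∈ J, ∀ a a' b, R a b i = R a' b i)
    (hO : ∀ i, i ∉ I → i ∉ J → ∀ a a' b b', R a b i = R a' b' i) :
    ∃ (d : ℕ) (f : α → Fin d → K) (g : β → Fin d → K),
      d ≤ 2 ^ (∑ i ∈ I ∪ J, τ i) ∧
      ∀ a b, (C + ∑ i, P i * R a b i).det = ∑ i, f a i * g b i := by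
  classical
  by_cases hα : Nonempty α
  swap
  · exact ⟨0, fun a => (hα ⟨a⟩).elim, fun _ => Fin.elim0, Nat.zero_le _,
      fun a => (hα ⟨a⟩).elim⟩
  by_cases hβ : Nonempty β
  swap
  · exact ⟨0, fun _ => Fin.elim0, fun b => (hβ ⟨b⟩).elim, Nat.zero_le _,
      fun _ b => (hβ ⟨b⟩).elim⟩
  obtain ⟨a0⟩ := hα
  obtain ⟨b0⟩ := hβ
  have hcard : ∀ L : Finset (Fin n), Fintype.card (Σ i : L, Fin (τ i.1)) = ∑ i ∈ L, τ i := by
    intro L
    rw [Fintype.card_sigma]
    simp only [Fintype.card_fin]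
    exact Finset.sum_coe_sort L τ
  have hmul : ∀ (L : Finset (Fin n)) (a : α) (b : β),
      (∑ i ∈ L, P i * R a b i) = (Matrix.of fun s (x : Σ i : L, Fin (τ i.1)) => P x.1.1 s x.2)
        * (Matrix.of fun (x : Σ i : L, Fin (τ i.1)) s => R a b x.1.1 x.2 s) := by
    intro L a b
    ext s s'
    rw [Matrix.sum_apply, Matrix.mul_apply, Fintype.sum_sigma, ← Finset.sum_coe_sort]
    refine Finset.sum_congr rfl fun i _ => ?_
    rw [Matrix.mul_apply]
    rfl
  obtain ⟨d, f, g, hd, hfg⟩ := det_factor_add (K := K) (α := α) (β := β)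
    (C + ∑ i ∈ (I ∪ J)ᶜ, P i * R a0 b0 i)
    (Matrix.of fun s (x : Σ i : I, Fin (τ i.1)) => P x.1.1 s x.2)
    (fun a => Matrix.of fun (x : Σ i : I, Fin (τ i.1)) s => R a b0 x.1.1 x.2 s)
    (Matrix.of fun s (x : Σ i : J, Fin (τ i.1)) => P x.1.1 s x.2)
    (fun b => Matrix.of fun (x : Σ i : J, Fin (τ i.1)) s => R a0 b x.1.1 x.2 s)
  refine ⟨d, f, g, ?_, fun a b => ?_⟩
  · rw [hcard, hcard] at hd
    rw [Finset.sum_union hIJ]
    exact hd
  · rw [← hfg, ← hmul, ← hmul]
    congr 1
    have h1 : ∑ i ∈ (I ∪ J)ᶜ, P i * R a0 b0 i = ∑ i ∈ (I ∪ J)ᶜ, P i * R a b i := by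
      refine Finset.sum_congr rfl fun i hi => ?_
      simp only [mem_compl, mem_union, not_or] at hi
      rw [hO i hi.1 hi.2 a0 a b0 b]
    have h2 : ∑ i ∈ I, P i * R a b0 i = ∑ i ∈ I, P i * R a b i :=
      Finset.sum_congr rfl fun i hi => by rw [hI i hi a b0 b]
    have h3 : ∑ i ∈ J, P i * R a0 b i = ∑ i ∈ J, P i * R a b i :=
      Finset.sum_congr rfl fun i hi => by rw [hJ i hi a0 a b]
    rw [h1, h2, h3, add_assoc, add_assoc, ← Finset.sum_union hIJ,
      Finset.sum_compl_add_sum (I ∪ J)]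

/-- The first `m` values of a monotone sequence have average at most the overall average. -/
lemma mul_sum_filter_le {n m : ℕ} (τ : Fin n → ℕ) (hτ : Monotone τ) :
    n * ∑ i ∈ univ.filter (fun i : Fin n => i.1 < m), τ i ≤ min m n * ∑ i, τ i := by
  have h := AntivaryOn.card_mul_sum_le_sum_mul_sum (ι := Fin n) (α := ℕ) (s := univ)
    (f := fun i : Fin n => if i.1 < m then 1 else 0) (g := τ) (by
      intro i _ j _ hij
      have hij' : i < j := by
        by_contra hcon
        exact absurd (hτ (not_lt.1 hcon)) (not_le.2 hij)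
      have : i.1 < j.1 := hij'
      dsimp only
      split_ifs <;> omega)
  simp only [card_univ, Fintype.card_fin, ite_mul, one_mul, zero_mul] at h
  rw [← Finset.sum_filter, Finset.sum_boole] at h
  refine h.trans (Nat.mul_le_mul_right _ ?_)
  simp only [Nat.cast_id]
  rw [le_min_iff]
  constructor
  · calc (univ.filter (fun i : Fin n => i.1 < m)).card
        = ((univ.filter (fun i : Fin n => i.1 < m)).map Fin.valEmbedding).card :=
          (Finset.card_map _).symm
      _ ≤ (Finset.range m).card := by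
        apply Finset.card_le_card
        intro x hx
        simp only [mem_map, mem_filter, mem_univ, true_and, Fin.valEmbedding_apply] at hx
        obtain ⟨i, hi, rfl⟩ := hx
        simpa using hi
      _ = m := by simp
  · exact (Finset.card_le_univ _).trans (by simp)

end Pool.Agent.Lead.RankAdditive
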