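import Mathlib

open Finset

namespace Pool.Agent.Lead.Gadget

/-- index set of rows and of columns of the gadget with `k` cells -/
abbrev Ix (k : ℕ) : Type := Bool ⊕ (Fin k × Bool)

/-- support of the rows: `inl false` is the left unit row at `(x, false)`, `inl true` the right unit
row at `(y, true)`; every cell has the rows `inr (c, false)`, `inr (c, true)`. -/
def supp {k : ℕ} (x y : Fin k) : Ix k → Ix k → Bool
  | Sum.inl false, j => decide (j = Sum.inr (x, false))
  | Sum.inl true, j => decide (j = Sum.inr (y, true))
  | Sum.inr (c, false), j => decide (j = Sum.inr (c, false)) || decide (j = Sum.inr (c, true))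
  | Sum.inr (c, true), j => decide (j = Sum.inr (c, true)) || decide (j = Sum.inl false)
      || decide (j = Sum.inl true)

/-- The function describing the two perfect matchings for `x ≠ y`. -/
def fm {k : ℕ} (x y : Fin k) (h : Bool) : Ix k → Ix k
  | Sum.inl false => Sum.inr (x, false)
  | Sum.inl true => Sum.inr (y, true)
  | Sum.inr (c, false) => if c = x then Sum.inr (x, true) else Sum.inr (c, false)
  | Sum.inr (c, true) => if c = x then Sum.inl h else if c = y then Sum.inl (!h)
      else Sum.inr (c, true)

lemma fm_injective {k : ℕ} (x y : Fin k) (hxy : x ≠ y) (h : Bool) :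
    Function.Injective (fm x y h) := by
  rintro (i | ⟨c, i⟩) (j | ⟨d, j⟩) e <;> cases i <;> cases j <;> simp only [fm] at e ⊢ <;>
    (try split_ifs at e) <;> simp_all

noncomputable def fp {k : ℕ} (x y : Fin k) (hxy : x ≠ y) (h : Bool) : Equiv.Perm (Ix k) :=
  Equiv.ofBijective (fm x y h) (Finite.injective_iff_bijective.1 (fm_injective x y hxy h))

lemma fp_apply {k : ℕ} (x y : Fin k) (hxy : x ≠ y) (h : Bool) (i : Ix k) :
    fp x y hxy h i = fm x y h i := rfl

lemma supp_fm {k : ℕ} (x y : Fin k) (h : Bool) (i : Ix k) :
    supp x y i (fm x y h i) = true := by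
  rcases i with i | ⟨c, i⟩ <;> cases i <;> cases h <;> simp [fm, supp] <;> split_ifs <;> simp_all

lemma valid_forms {k : ℕ} (x y : Fin k) (σ : Equiv.Perm (Ix k))
    (hσ : ∀ i, supp x y i (σ i) = true) :
    x ≠ y ∧ ∀ i, σ i = fm x y (decide (σ (Sum.inr (x, true)) = Sum.inl true)) i := by
  have h1 : σ (Sum.inl false) = Sum.inr (x, false) := by
    have := hσ (Sum.inl false); simpa [supp] using this
  have h2 : σ (Sum.inl true) = Sum.inr (y, true) := by
    have := hσ (Sum.inl true); simpa [supp] using this
  have h3 : ∀ c, σ (Sum.inr (c, false)) = Sum.inr (c, false) ∨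
      σ (Sum.inr (c, false)) = Sum.inr (c, true) := by
    intro c
    have := hσ (Sum.inr (c, false)); simpa [supp] using this
  have h4 : ∀ c, σ (Sum.inr (c, true)) = Sum.inr (c, true) ∨
      σ (Sum.inr (c, true)) = Sum.inl false ∨ σ (Sum.inr (c, true)) = Sum.inl true := by
    intro c
    have := hσ (Sum.inr (c, true)); simpa [supp, or_assoc] using this
  have h5 : σ (Sum.inr (x, false)) = Sum.inr (x, true) := by
    rcases h3 x with h | h
    · cases σ.injective (h.trans h1.symm)
    · exact h
  have hxy : x ≠ y := by
    intro e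
    rw [← e, ← h5] at h2
    exact absurd (σ.injective h2) (by simp)
  have h6 : ∀ c, c ≠ x → σ (Sum.inr (c, false)) = Sum.inr (c, false) := by
    intro c hc
    obtain ⟨i, hi⟩ := σ.surjective (Sum.inr (c, false))
    rcases i with i | ⟨d, i⟩ <;> cases i
    · rw [h1] at hi; simp at hi; exact absurd hi.symm hc
    · rw [h2] at hi; simp at hi
    · rcases h3 d with h | h
      · rw [h] at hi; simp at hi; subst hi; exact h
      · rw [h] at hi; simp at hi
    · rcases h4 d with h | h | h
      · rw [h] at hi; simp at hi
      · rw [h] at hi; exact absurd hi (by simp)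
      · rw [h] at hi; exact absurd hi (by simp)
  have h7 : ∀ c, c ≠ x → c ≠ y → σ (Sum.inr (c, true)) = Sum.inr (c, true) := by
    intro c hcx hcy
    obtain ⟨i, hi⟩ := σ.surjective (Sum.inr (c, true))
    rcases i with i | ⟨d, i⟩ <;> cases i
    · rw [h1] at hi; simp at hi
    · rw [h2] at hi; simp at hi; exact absurd hi.symm hcy
    · rcases h3 d with h | h
      · rw [h] at hi; simp at hi
      · rw [h] at hi; simp at hi; subst hi
        rw [h6 d hcx] at h
        simp at h
    · rcases h4 d with h | h | h
      · rw [h] at hi; simp at hi; subst hi; exact h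
      · rw [h] at hi; simp at hi
      · rw [h] at hi; simp at hi
  have h8 : σ (Sum.inr (x, true)) = Sum.inl false ∨ σ (Sum.inr (x, true)) = Sum.inl true := by
    rcases h4 x with h | h
    · cases σ.injective (h.trans h5.symm)
    · exact h
  have h9 : σ (Sum.inr (y, true)) = Sum.inl false ∨ σ (Sum.inr (y, true)) = Sum.inl true := by
    rcases h4 y with h | h
    · cases σ.injective (h.trans h2.symm)
    · exact h
  have h10 : σ (Sum.inr (y, true)) ≠ σ (Sum.inr (x, true)) := by
    intro e
    have := σ.injective e
    simp at this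
    exact hxy this.symm
  refine ⟨hxy, fun i => ?_⟩
  rcases i with i | ⟨c, i⟩ <;> cases i
  · simpa [fm] using h1
  · simpa [fm] using h2
  · by_cases hc : c = x
    · subst hc; simpa [fm] using h5
    · simpa [fm, hc] using h6 c hc
  · by_cases hc : c = x
    · subst hc
      rcases h8 with h | h <;> simp [fm, h]
    · by_cases hc' : c = y
      · subst hc'
        rcases h8 with h | h <;> rcases h9 with h' | h' <;> simp_all [fm]
      · simpa [fm, hc, hc'] using h7 c hc hc'

/-- the 0/1 matrix of the gadget -/
def mat (K : Type*) [Field K] {k : ℕ} (x y : Fin k) : Matrix (Ix k) (Ix k) K :=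
  fun i j => if supp x y i j = true then 1 else 0

theorem permanent_mat {K : Type*} [Field K] {k : ℕ} (x y : Fin k) :
    (mat K x y).permanent = if x = y then 0 else 2 := by
  classical
  rw [← Matrix.permanent_transpose]
  unfold Matrix.permanent
  have h1 : ∀ σ : Equiv.Perm (Ix k), ∏ i, (mat K x y).transpose (σ i) i
      = if (∀ i, supp x y i (σ i) = true) then 1 else 0 := by
    intro σ
    split_ifs with h
    · refine Finset.prod_eq_one fun i _ => ?_
      simp [mat, Matrix.transpose_apply, h i]
    · rw [not_forall] at h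
      obtain ⟨i, hi⟩ := h
      refine Finset.prod_eq_zero (Finset.mem_univ i) ?_
      simp [mat, Matrix.transpose_apply, hi]
  simp_rw [h1]
  rw [Finset.sum_boole]
  split_ifs with hxy
  · rw [Finset.filter_eq_empty_iff.2]
    · simp
    · intro σ _ hσ
      exact (valid_forms x y σ hσ).1 hxy
  · have h2 : univ.filter (fun σ : Equiv.Perm (Ix k) => ∀ i, supp x y i (σ i) = true)
        = {fp x y hxy false, fp x y hxy true} := by
      ext σ
      simp only [mem_filter, mem_univ, true_and, mem_insert, mem_singleton]
      constructor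
      · intro hσ
        have h3 := (valid_forms x y σ hσ).2
        cases hb : decide (σ (Sum.inr (x, true)) = Sum.inl true)
        · left; ext1 i; rw [h3 i, hb]; rfl
        · right; ext1 i; rw [h3 i, hb]; rfl
      · rintro (rfl | rfl) i
        · exact supp_fm x y false i
        · exact supp_fm x y true i
    rw [h2, Finset.card_pair]
    · norm_num
    · intro e
      have h3 := congrArg (fun σ : Equiv.Perm (Ix k) => σ (Sum.inr (x, true))) e
      simp only [fp_apply, fm, if_true] at h3
      exact absurd (Sum.inl_injective h3) (by simp)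

/-- The permanent of a block diagonal matrix. -/
theorem permanent_blockDiagonal {R n o : Type*} [CommRing R] [Fintype n] [DecidableEq n]
    [Fintype o] [DecidableEq o] (M : o → Matrix n n R) :
    (Matrix.blockDiagonal M).permanent = ∏ k, (M k).permanent := by
  simp_rw [Matrix.permanent]
  rw [Finset.prod_sum]
  simp_rw [Finset.prod_attach_univ, Finset.univ_pi_univ]
  let preserving_snd : Finset (Equiv.Perm (n × o)) := {σ | ∀ x, (σ x).snd = x.snd}
  have mem_preserving_snd :
      ∀ {σ : Equiv.Perm (n × o)}, σ ∈ preserving_snd ↔ ∀ x, (σ x).snd = x.snd := fun {σ} =>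
    Finset.mem_filter.trans ⟨fun h => h.2, fun h => ⟨Finset.mem_univ _, h⟩⟩
  rw [← Finset.sum_subset (Finset.subset_univ preserving_snd) _]
  · refine (Finset.sum_bij (fun σ _ => Equiv.prodCongrLeft fun k ↦ σ k (mem_univ k)) ?_ ?_ ?_ ?_).symm
    · intro σ _
      rw [mem_preserving_snd]
      rintro ⟨-, x⟩
      simp only [Equiv.prodCongrLeft_apply]
    · intro σ _ σ' _ eq
      ext x hx k
      have :
        ∀ k x,
          Equiv.prodCongrLeft (fun k => σ k (Finset.mem_univ _)) (k, x) =
            Equiv.prodCongrLeft (fun k => σ' k (Finset.mem_univ _)) (k, x) :=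
        fun k x => by rw [eq]
      simp only [Equiv.prodCongrLeft_apply, Prod.mk_inj] at this
      exact (this k x).1
    · intro σ hσ
      rw [mem_preserving_snd] at hσ
      have hσ' x : (σ.symm x).snd = x.snd := by simpa [eq_comm] using hσ (σ.symm x)
      have mk_apply_eq : ∀ k x, ((σ (x, k)).fst, k) = σ (x, k) := by
        intro k x
        ext
        · simp only
        · simp only [hσ]
      have mk_inv_apply_eq : ∀ k x, ((σ.symm (x, k)).fst, k) = σ.symm (x, k) := by grind
      refine ⟨fun k _ => ⟨fun x => (σ (x, k)).fst, fun x => (σ.symm (x, k)).fst, ?_, ?_⟩, ?_, ?_⟩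
      · intro x
        simp [mk_apply_eq]
      · intro x
        simp [mk_inv_apply_eq]
      · apply Finset.mem_univ
      · ext ⟨k, x⟩
        · simp only [Equiv.coe_fn_mk, Equiv.prodCongrLeft_apply]
        · simp only [Equiv.prodCongrLeft_apply, hσ]
    · intro σ _
      rw [← Finset.univ_product_univ, Finset.prod_product_right]
      simp only [Matrix.blockDiagonal_apply_eq, Equiv.prodCongrLeft_apply]
  · intro σ _ hσ
    rw [mem_preserving_snd] at hσ
    obtain ⟨⟨k, x⟩, hkx⟩ := not_forall.mp hσ
    rw [Finset.prod_eq_zero (Finset.mem_univ (k, x))]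
    rw [Matrix.blockDiagonal_apply_ne]
    exact hkx

end Pool.Agent.Lead.Gadget
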