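import Mathlib

open Finset

namespace Pool.Agent.Lead.PermRows

variable {K : Type*} [Field K] {n r : ℕ}

/-- The 0/1 matrix whose first `r` rows are unit rows `u`, the next `r` rows unit rows `v`,
and whose remaining rows are all ones. -/
def X (K : Type*) [Field K] (u v : Fin r → Fin n) : Matrix (Fin n) (Fin n) K := fun i j =>
  if h : i.1 < r then (if j = u ⟨i.1, h⟩ then 1 else 0)
  else if h2 : i.1 < 2 * r then (if j = v ⟨i.1 - r, by omega⟩ then 1 else 0) else 1

lemma X_zero_one (u v : Fin r → Fin n) (i j : Fin n) : X K u v i j = 0 ∨ X K u v i j = 1 := by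
  unfold X
  split_ifs <;> simp

/-- positions of the unit rows -/
def posL (h : 2 * r ≤ n) (a : Fin r) : Fin n := ⟨a.1, by omega⟩
def posR (h : 2 * r ≤ n) (a : Fin r) : Fin n := ⟨r + a.1, by omega⟩

/-- the permutations which send `u a` to `a` and `v a` to `r + a`. -/
def good (h : 2 * r ≤ n) (u v : Fin r → Fin n) : Finset (Equiv.Perm (Fin n)) :=
  univ.filter (fun σ => (∀ a, σ (u a) = posL h a) ∧ ∀ a, σ (v a) = posR h a)

lemma permanent_X (h : 2 * r ≤ n) (u v : Fin r → Fin n) :
    (X K u v).permanent = ((good h u v).card : K) := by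
  unfold Matrix.permanent good
  rw [Finset.card_filter, Nat.cast_sum]
  refine Finset.sum_congr rfl fun σ _ => ?_
  have h1 : ∏ i, X K u v (σ i) i = ∏ k, X K u v k (σ.symm k) := by
    rw [← Equiv.prod_comp σ (fun k => X K u v k (σ.symm k))]
    exact Finset.prod_congr rfl fun i _ => by rw [Equiv.symm_apply_apply]
  rw [h1]
  split_ifs with hP
  · rw [Nat.cast_one]
    refine Finset.prod_eq_one fun k _ => ?_
    unfold X
    split_ifs with h2 h3 h4 h5
    · rfl
    · exfalso; apply h3
      rw [Equiv.symm_apply_eq, hP.1]; rfl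
    · rfl
    · exfalso; apply h5
      rw [Equiv.symm_apply_eq, hP.2]
      apply Fin.ext
      simp only [posR]; omega
    · rfl
  · rw [Nat.cast_zero]
    rw [not_and_or, not_forall, not_forall] at hP
    rcases hP with ⟨a, ha⟩ | ⟨a, ha⟩
    · refine Finset.prod_eq_zero (Finset.mem_univ (posL h a)) ?_
      unfold X
      have h2 : (posL h a).1 < r := a.2
      rw [dif_pos h2, if_neg]
      intro e
      apply ha
      rw [Equiv.symm_apply_eq] at e
      exact e.symm
    · refine Finset.prod_eq_zero (Finset.mem_univ (posR h a)) ?_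
      unfold X
      have h2 : ¬ (posR h a).1 < r := by simp [posR]
      have h3 : (posR h a).1 < 2 * r := by simp only [posR]; omega
      rw [dif_neg h2, dif_pos h3, if_neg]
      intro e
      apply ha
      rw [Equiv.symm_apply_eq] at e
      have : (⟨(posR h a).1 - r, by simp only [posR]; omega⟩ : Fin r) = a := by
        apply Fin.ext; simp [posR]
      rw [this] at e
      exact e.symm

lemma good_empty (h : 2 * r ≤ n) (u v : Fin r → Fin n) (a b : Fin r) (hab : u a = v b) :
    good h u v = ∅ := by
  rw [Finset.eq_empty_iff_forall_notMem]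
  intro σ hσ
  simp only [good, mem_filter] at hσ
  have h1 := hσ.2.1 a
  have h2 := hσ.2.2 b
  rw [hab, h2] at h1
  have := congrArg Fin.val h1
  simp only [posL, posR] at this
  omega

lemma exists_perm {p : ℕ} (f g : Fin p → Fin n) (hf : Function.Injective f)
    (hg : Function.Injective g) : ∃ τ : Equiv.Perm (Fin n), ∀ a, τ (f a) = g a := by
  classical
  let e : {x // x ∈ Set.range f} ≃ {x // x ∈ Set.range g} :=
    (Equiv.ofInjective f hf).symm.trans (Equiv.ofInjective g hg)
  refine ⟨e.extendSubtype, fun a => ?_⟩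
  rw [Equiv.extendSubtype_apply_of_mem e (f a) ⟨a, rfl⟩]
  have h1 : (Equiv.ofInjective f hf).symm ⟨f a, ⟨a, rfl⟩⟩ = a := by
    rw [Equiv.symm_apply_eq]; rfl
  simp only [e, Equiv.trans_apply]
  rw [h1]; rfl

/-- if `u`, `v` are injective with disjoint ranges, the number of good permutations is a constant -/
lemma good_card (h : 2 * r ≤ n) (u v : Fin r → Fin n) (hu : Function.Injective u)
    (hv : Function.Injective v) (huv : ∀ a b, u a ≠ v b) :
    (good h u v).card = (good h (posL h) (posR h)).card := by
  have hw : Function.Injective (fun x : Fin (r + r) => Fin.addCases (motive := fun _ => Fin n) u v x) := by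
    intro x y
    refine Fin.addCases (fun a => ?_) (fun a => ?_) x <;>
      refine Fin.addCases (fun b => ?_) (fun b => ?_) y
    · simp only [Fin.addCases_left]; intro e; rw [hu e]
    · simp only [Fin.addCases_left, Fin.addCases_right]; intro e; exact absurd e (huv _ _)
    · simp only [Fin.addCases_left, Fin.addCases_right]; intro e; exact absurd e.symm (huv _ _)
    · simp only [Fin.addCases_right]; intro e; rw [hv e]
  have hp : Function.Injective (fun x : Fin (r + r) =>
      Fin.addCases (motive := fun _ => Fin n) (posL h) (posR h) x) := by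
    intro x y
    refine Fin.addCases (fun a => ?_) (fun a => ?_) x <;>
      refine Fin.addCases (fun b => ?_) (fun b => ?_) y
    · simp only [Fin.addCases_left, posL, Fin.mk.injEq]; intro e; rw [Fin.ext e]
    · simp only [Fin.addCases_left, Fin.addCases_right, posL, posR, Fin.mk.injEq]; intro e; omega
    · simp only [Fin.addCases_left, Fin.addCases_right, posL, posR, Fin.mk.injEq]; intro e; omega
    · simp only [Fin.addCases_right, posR, Fin.mk.injEq]; intro e
      rw [Fin.ext (by omega : a.1 = b.1)]
  obtain ⟨τ, hτ⟩ := exists_perm _ _ hp hw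
  have hτL : ∀ a, τ (posL h a) = u a := by
    intro a
    have := hτ (Fin.castAdd r a)
    simp only [Fin.addCases_left] at this
    exact this
  have hτR : ∀ a, τ (posR h a) = v a := by
    intro a
    have := hτ (Fin.natAdd r a)
    simp only [Fin.addCases_right] at this
    exact this
  refine Finset.card_bij (fun σ _ => σ * τ) ?_ ?_ ?_
  · intro σ hσ
    simp only [good, mem_filter, mem_univ, true_and] at hσ ⊢
    refine ⟨fun a => ?_, fun a => ?_⟩
    · rw [Equiv.Perm.mul_apply, hτL, hσ.1]
    · rw [Equiv.Perm.mul_apply, hτR, hσ.2]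
  · intro σ _ σ' _ e
    exact mul_right_cancel e
  · intro σ hσ
    refine ⟨σ * τ⁻¹, ?_, by simp⟩
    simp only [good, mem_filter, mem_univ, true_and] at hσ ⊢
    refine ⟨fun a => ?_, fun a => ?_⟩
    · rw [Equiv.Perm.mul_apply, ← hτL, Equiv.Perm.inv_def, Equiv.symm_apply_apply, hσ.1]
    · rw [Equiv.Perm.mul_apply, ← hτR, Equiv.Perm.inv_def, Equiv.symm_apply_apply, hσ.2]

lemma good_pos (h : 2 * r ≤ n) : 0 < (good h (posL h) (posR h)).card := by
  rw [Finset.card_pos]
  exact ⟨1, by simp [good]⟩

/-- the permanent of `X` for `u`, `v` enumerations of `r`-sets -/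
lemma permanent_X_sets (h : 2 * r ≤ n) (J L : Finset (Fin n)) (hJ : J.card = r) (hL : L.card = r) :
    (X K (J.orderEmbOfFin hJ) (L.orderEmbOfFin hL)).permanent
      = if Disjoint J L then ((good h (posL h) (posR h)).card : K) else 0 := by
  rw [permanent_X h]
  split_ifs with hd
  · rw [good_card h _ _ (J.orderEmbOfFin hJ).injective (L.orderEmbOfFin hL).injective]
    intro a b e
    exact Finset.disjoint_left.1 hd (J.orderEmbOfFin_mem hJ a) (by
      rw [e]; exact L.orderEmbOfFin_mem hL b)
  · rw [Finset.not_disjoint_iff] at hd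
    obtain ⟨x, hx1, hx2⟩ := hd
    have h1 : x ∈ Set.range (J.orderEmbOfFin hJ) := by rw [Finset.range_orderEmbOfFin]; exact hx1
    have h2 : x ∈ Set.range (L.orderEmbOfFin hL) := by rw [Finset.range_orderEmbOfFin]; exact hx2
    obtain ⟨a, ha⟩ := h1
    obtain ⟨b, hb⟩ := h2
    rw [good_empty h _ _ a b (by rw [ha, hb])]
    simp

end Pool.Agent.Lead.PermRows
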