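import Mathlib
import Pool.Agent.Lead.Gadget
import Pool.Agent.Lead.RankAdditive
import Pool.Agent.Lead.PermRows

open Finset

namespace Pool.Agent.Lead.GadgetRank

variable {K : Type*} [Field K]

/-- A bilinear form of small rank has a left kernel. -/
theorem exists_kernel {A B : Type*} [Fintype A] (N D : ℕ) (c : Fin N → K)
    (V : Fin N → A → B → K)
    (hfac : ∀ k, ∃ (d : ℕ) (f : A → Fin d → K) (g : B → Fin d → K), d ≤ D ∧
      ∀ a b, V k a b = ∑ i, f a i * g b i) (h : N * D < Fintype.card A) :
    ∃ α : A → K, α ≠ 0 ∧ ∀ b, ∑ a, α a * (∑ k, c k * V k a b) = 0 := by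
  classical
  choose d f g hd hfg using hfac
  let Φ : (A → K) →ₗ[K] (∀ k : Fin N, Fin (d k) → K) :=
    { toFun := fun α k j => ∑ J, α J * f k J j
      map_add' := by
        intro α β
        funext k j
        simp only [Pi.add_apply, add_mul, Finset.sum_add_distrib]
      map_smul' := by
        intro x α
        funext k j
        simp only [Pi.smul_apply, smul_eq_mul, RingHom.id_apply, Finset.mul_sum, mul_assoc] }
  have hfr : Module.finrank K (∀ k : Fin N, Fin (d k) → K) < Module.finrank K (A → K) := by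
    rw [Module.finrank_fintype_fun_eq_card, Module.finrank_pi_fintype]
    simp only [Module.finrank_fintype_fun_eq_card, Fintype.card_fin]
    refine lt_of_le_of_lt ?_ h
    calc ∑ k : Fin N, d k ≤ ∑ _k : Fin N, D := Finset.sum_le_sum fun k _ => hd k
      _ = N * D := by simp
  have hker := LinearMap.ker_ne_bot_of_finrank_lt (f := Φ) hfr
  obtain ⟨α, hα, hα0⟩ := (Submodule.ne_bot_iff _).1 hker
  rw [LinearMap.mem_ker] at hα
  have hΦ : ∀ k j, ∑ J, α J * f k J j = 0 := fun k j => congrFun (congrFun hα k) j
  refine ⟨α, hα0, fun b => ?_⟩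
  have h1 : ∀ a, α a * (∑ k, c k * V k a b) = ∑ k, c k * ∑ j, g k b j * (α a * f k a j) := by
    intro a
    rw [Finset.mul_sum]
    refine Finset.sum_congr rfl fun k _ => ?_
    rw [hfg, Finset.mul_sum, Finset.mul_sum, Finset.mul_sum]
    refine Finset.sum_congr rfl fun j _ => ?_
    ring
  simp_rw [h1]
  rw [Finset.sum_comm]
  refine Finset.sum_eq_zero fun k _ => ?_
  rw [← Finset.mul_sum, Finset.sum_comm]
  simp_rw [← Finset.mul_sum, hΦ]
  simp

/-- The tensor powers of `J - I` are nonsingular. -/
theorem tensor_nonsingular {Q k : ℕ} (hk : ((k : K) - 1) ≠ 0) (α : (Fin Q → Fin k) → K)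
    (h : ∀ y : Fin Q → Fin k, ∑ x, α x * ∏ b, (if x b = y b then (0 : K) else 1) = 0) :
    α = 0 := by
  classical
  funext z
  have h1 : ∀ x : Fin Q → Fin k, ∑ y : Fin Q → Fin k,
      (∏ b, (if x b = y b then (0 : K) else 1)) * (∏ b, (1 / ((k : K) - 1) -
        if y b = z b then 1 else 0)) = if x = z then 1 else 0 := by
    intro x
    simp_rw [← Finset.prod_mul_distrib]
    have h2 := Finset.prod_univ_sum (fun _ : Fin Q => (univ : Finset (Fin k)))
      (fun (b : Fin Q) (u : Fin k) => (if x b = u then (0 : K) else 1) *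
        (1 / ((k : K) - 1) - if u = z b then 1 else 0))
    rw [Fintype.piFinset_univ] at h2
    rw [← h2]
    have h3 : ∀ b, ∑ u : Fin k, (if x b = u then (0 : K) else 1) *
        (1 / ((k : K) - 1) - if u = z b then 1 else 0) = if x b = z b then 1 else 0 := by
      intro b
      have e1 : ∀ u : Fin k, (if x b = u then (0 : K) else 1) *
          (1 / ((k : K) - 1) - if u = z b then 1 else 0)
          = (1 / ((k : K) - 1) - if u = z b then 1 else 0)
            - (if u = x b then (1 / ((k : K) - 1) - if x b = z b then 1 else 0) else 0) := by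
        intro u
        by_cases hu : x b = u
        · subst hu; simp
        · have hu' : u ≠ x b := fun e => hu e.symm
          simp [hu, hu']
      simp_rw [e1]
      rw [Finset.sum_sub_distrib, Finset.sum_sub_distrib]
      simp only [Finset.sum_const, Finset.card_univ, Fintype.card_fin, nsmul_eq_mul,
        Finset.sum_ite_eq', Finset.mem_univ, if_true]
      split_ifs
      · field_simp
        ring
      · field_simp
        ring
    rw [Finset.prod_congr rfl fun b _ => h3 b]
    split_ifs with hx
    · subst hx; simp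
    · obtain ⟨b, hb⟩ := Function.ne_iff.1 hx
      exact Finset.prod_eq_zero (Finset.mem_univ b) (if_neg hb)
  calc α z = ∑ x, α x * (if x = z then 1 else 0) := by simp
    _ = ∑ x, α x * ∑ y : Fin Q → Fin k, (∏ b, (if x b = y b then (0 : K) else 1)) *
        (∏ b, (1 / ((k : K) - 1) - if y b = z b then 1 else 0)) := by
        simp_rw [h1]
    _ = ∑ y : Fin Q → Fin k, (∑ x, α x * ∏ b, (if x b = y b then (0 : K) else 1)) *
        (∏ b, (1 / ((k : K) - 1) - if y b = z b then 1 else 0)) := by
        simp_rw [Finset.mul_sum, Finset.sum_mul]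
        rw [Finset.sum_comm]
        refine Finset.sum_congr rfl fun y _ => Finset.sum_congr rfl fun x _ => ?_
        ring
    _ = 0 := by simp [h]

/-- invariance of the permanent under relabelling -/
theorem permanent_submatrix_equiv {m n : Type*} [Fintype m] [Fintype n] [DecidableEq m]
    [DecidableEq n] (e : m ≃ n) (M : Matrix n n K) :
    (M.submatrix e e).permanent = M.permanent := by
  unfold Matrix.permanent
  refine Fintype.sum_equiv e.permCongr _ _ fun σ => ?_
  rw [← Equiv.prod_comp e]
  refine Finset.prod_congr rfl fun i _ => ?_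
  simp [Equiv.permCongr_apply]

theorem permanent_fromBlocks_one {m s : Type*} [Fintype m] [Fintype s] [DecidableEq m]
    [DecidableEq s] (A : Matrix m m K) :
    (Matrix.fromBlocks A 0 0 (1 : Matrix s s K)).permanent = A.permanent := by
  classical
  unfold Matrix.permanent
  symm
  refine Fintype.sum_of_injective (fun τ : Equiv.Perm m => Equiv.Perm.sumCongr τ (1 : Equiv.Perm s))
    ?_ _ _ ?_ ?_
  · intro τ τ' h
    ext i
    have := congrArg (fun σ : Equiv.Perm (m ⊕ s) => σ (Sum.inl i)) h
    simpa using this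
  · intro σ hσ
    by_contra hne
    apply hσ
    have h1 : ∀ j, Matrix.fromBlocks A 0 0 (1 : Matrix s s K) (σ j) j ≠ 0 := by
      intro j h0
      exact hne (Finset.prod_eq_zero (Finset.mem_univ j) h0)
    have h2 : ∀ j : s, σ (Sum.inr j) = Sum.inr j := by
      intro j
      have := h1 (Sum.inr j)
      rcases hs : σ (Sum.inr j) with i | i
      · rw [hs] at this; simp at this
      · rw [hs] at this
        simp only [Matrix.fromBlocks_apply₂₂, Matrix.one_apply] at this
        by_cases hij : i = j
        · rw [hij]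
        · simp [hij] at this
    have h3 : Set.MapsTo σ (Set.range Sum.inl) (Set.range Sum.inl) := by
      rintro _ ⟨i, rfl⟩
      rcases hs : σ (Sum.inl i) with k | k
      · exact ⟨k, rfl⟩
      · exfalso
        rw [← h2 k] at hs
        exact absurd (σ.injective hs) (by simp)
    obtain ⟨⟨τ1, τ2⟩, hτ⟩ := Equiv.Perm.mem_sumCongrHom_range_of_perm_mapsTo_inl h3
    refine ⟨τ1, ?_⟩
    have h4 : τ2 = 1 := by
      ext j
      have := h2 j
      rw [← hτ] at this
      simpa using this
    rw [← hτ, h4]
    rfl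
  · intro τ
    rw [Fintype.prod_sum_type]
    simp

/-- the family of instances -/
def inst {k Q s n : ℕ} (e : (Gadget.Ix k × Fin Q) ⊕ Fin s ≃ Fin n) (x y : Fin Q → Fin k) :
    Matrix (Fin n) (Fin n) K :=
  (Matrix.fromBlocks (Matrix.blockDiagonal fun b => Gadget.mat K (x b) (y b)) 0 0
    (1 : Matrix (Fin s) (Fin s) K)).submatrix e.symm e.symm

lemma permanent_inst {k Q s n : ℕ} (e : (Gadget.Ix k × Fin Q) ⊕ Fin s ≃ Fin n)
    (x y : Fin Q → Fin k) :
    (inst (K := K) e x y).permanent = 2 ^ Q * ∏ b, (if x b = y b then (0 : K) else 1) := by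
  unfold inst
  rw [permanent_submatrix_equiv, permanent_fromBlocks_one, Gadget.permanent_blockDiagonal]
  simp_rw [Gadget.permanent_mat]
  have h1 : ∀ b, (if x b = y b then (0 : K) else 2) = 2 * (if x b = y b then (0 : K) else 1) := by
    intro b; split_ifs <;> simp
  simp_rw [h1]
  rw [Finset.prod_mul_distrib]
  simp

lemma inst_zero_one {k Q s n : ℕ} (e : (Gadget.Ix k × Fin Q) ⊕ Fin s ≃ Fin n)
    (x y : Fin Q → Fin k) (i j : Fin n) :
    inst (K := K) e x y i j = 0 ∨ inst (K := K) e x y i j = 1 := by
  unfold inst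
  simp only [Matrix.submatrix_apply]
  rcases e.symm i with ⟨i1, i2⟩ | i1 <;> rcases e.symm j with ⟨j1, j2⟩ | j1
  · simp only [Matrix.fromBlocks_apply₁₁, Matrix.blockDiagonal_apply, Gadget.mat]
    split_ifs <;> simp
  · simp
  · simp
  · simp only [Matrix.fromBlocks_apply₂₂, Matrix.one_apply]
    split_ifs <;> simp

/-- the row `i` only depends on `x` unless `i` is a right unit row -/
lemma inst_left {k Q s n : ℕ} (e : (Gadget.Ix k × Fin Q) ⊕ Fin s ≃ Fin n)
    (x y y' : Fin Q → Fin k) (i : Fin n)
    (hi : ∀ b, i ≠ e (Sum.inl (Sum.inl true, b))) :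
    inst (K := K) e x y i = inst (K := K) e x y' i := by
  obtain ⟨i, rfl⟩ := e.surjective i
  funext j
  unfold inst
  simp only [Matrix.submatrix_apply, Equiv.symm_apply_apply]
  rcases i with ⟨i1, i2⟩ | i1 <;> rcases e.symm j with ⟨j1, j2⟩ | j1
  · simp only [Matrix.fromBlocks_apply₁₁, Matrix.blockDiagonal_apply]
    split_ifs with h
    · rcases i1 with i1 | ⟨i1, i3⟩
      · cases i1
        · rfl
        · exact absurd rfl (hi i2)
      · cases i3 <;> rfl
    · rfl
  · rfl
  · rfl
  · rfl

lemma inst_right {k Q s n : ℕ} (e : (Gadget.Ix k × Fin Q) ⊕ Fin s ≃ Fin n)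
    (x x' y : Fin Q → Fin k) (i : Fin n)
    (hi : ∀ b, i ≠ e (Sum.inl (Sum.inl false, b))) :
    inst (K := K) e x y i = inst (K := K) e x' y i := by
  obtain ⟨i, rfl⟩ := e.surjective i
  funext j
  unfold inst
  simp only [Matrix.submatrix_apply, Equiv.symm_apply_apply]
  rcases i with ⟨i1, i2⟩ | i1 <;> rcases e.symm j with ⟨j1, j2⟩ | j1
  · simp only [Matrix.fromBlocks_apply₁₁, Matrix.blockDiagonal_apply]
    split_ifs with h
    · rcases i1 with i1 | ⟨i1, i3⟩
      · cases i1
        · exact absurd rfl (hi i2)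
        · rfl
      · cases i3 <;> rfl
    · rfl
  · rfl
  · rfl
  · rfl

/-- A labelling for which the unit rows are the first `2 Q` rows. -/
lemma exists_equiv {k Q n : ℕ} (h : Q * (2 * k + 2) ≤ n) :
    ∃ (s : ℕ) (e : (Gadget.Ix k × Fin Q) ⊕ Fin s ≃ Fin n),
      ∀ c b, (e (Sum.inl (Sum.inl c, b))).1 < 2 * Q := by
  classical
  have hcard : Fintype.card ((Gadget.Ix k × Fin Q) ⊕ Fin (n - Q * (2 * k + 2)))
      = Fintype.card (Fin n) := by
    simp only [Fintype.card_sum, Fintype.card_prod, Fintype.card_bool, Fintype.card_fin]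
    have : (2 + k * 2) * Q = Q * (2 * k + 2) := by ring
    omega
  let e0 := Fintype.equivOfCardEq hcard
  have h2Q : 2 * Q ≤ n := by
    have : 2 * Q ≤ Q * (2 * k + 2) := by nlinarith [Nat.zero_le (Q * k)]
    omega
  let f : Fin (2 * Q) → Fin n := fun a =>
    e0 (Sum.inl (Sum.inl (finTwoEquiv (finProdFinEquiv.symm a).1), (finProdFinEquiv.symm a).2))
  let g : Fin (2 * Q) → Fin n := fun a => ⟨a.1, by omega⟩
  have hf : Function.Injective f := by
    intro a a' haa
    have h1 := e0.injective haa
    simp only [Sum.inl.injEq, Prod.mk.injEq] at h1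
    have h2 : (finProdFinEquiv.symm a) = (finProdFinEquiv.symm a') :=
      Prod.ext (finTwoEquiv.injective h1.1) h1.2
    exact finProdFinEquiv.symm.injective h2
  have hg : Function.Injective g := by
    intro a a' haa
    simp only [g, Fin.mk.injEq] at haa
    exact Fin.ext haa
  obtain ⟨π, hπ⟩ := PermRows.exists_perm f g hf hg
  refine ⟨n - Q * (2 * k + 2), e0.trans π, fun c b => ?_⟩
  have h1 := hπ (finProdFinEquiv (finTwoEquiv.symm c, b))
  simp only [f, Equiv.symm_apply_apply, Equiv.apply_symm_apply] at h1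
  rw [Equiv.trans_apply, h1]
  exact (finProdFinEquiv (finTwoEquiv.symm c, b)).2

/-- The main inequality for ordered rows. -/
theorem bound_Q (hK : (2 : K) ≠ 0) (n N k Q : ℕ) (hk : (k : K) - 1 ≠ 0)
    (hQ : Q * (2 * k + 2) ≤ n) (τ : Fin n → ℕ)
    (S : Fin N → Type) [∀ k, Fintype (S k)] [∀ k, DecidableEq (S k)]
    (C : ∀ k, Matrix (S k) (S k) K)
    (P : ∀ (k : Fin N) (i : Fin n), Matrix (S k) (Fin (τ i)) K)
    (R : ∀ (k : Fin N) (i : Fin n), (Fin n → K) → Matrix (Fin (τ i)) (S k) K)
    (c : Fin N → K)
    (h : ∀ X : Matrix (Fin n) (Fin n) K, (∀ i j, X i j = 0 ∨ X i j = 1) →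
      X.permanent = ∑ k, c k * (C k + ∑ i, P k i * R k i (X i)).det) :
    k ^ Q ≤ N * 2 ^ (∑ i ∈ univ.filter (fun i : Fin n => i.1 < 2 * Q), τ i) := by
  classical
  obtain ⟨s, e, he⟩ := exists_equiv (k := k) (Q := Q) hQ
  by_contra hcon
  push Not at hcon
  let I : Finset (Fin n) := univ.image (fun b : Fin Q => e (Sum.inl (Sum.inl false, b)))
  let J : Finset (Fin n) := univ.image (fun b : Fin Q => e (Sum.inl (Sum.inl true, b)))
  have hIJ : Disjoint I J := by
    rw [Finset.disjoint_left]
    intro i hi hj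
    simp only [I, J, mem_image, mem_univ, true_and] at hi hj
    obtain ⟨b, rfl⟩ := hi
    obtain ⟨b', hb'⟩ := hj
    have := e.injective hb'
    simp at this
  have hsub : I ∪ J ⊆ univ.filter (fun i : Fin n => i.1 < 2 * Q) := by
    intro i hi
    simp only [I, J, mem_union, mem_image, mem_univ, true_and, mem_filter] at hi ⊢
    rcases hi with ⟨b, rfl⟩ | ⟨b, rfl⟩ <;> exact he _ _
  obtain ⟨α, hα0, hα⟩ := exists_kernel (K := K) (A := Fin Q → Fin k) (B := Fin Q → Fin k) N
    (2 ^ (∑ i ∈ univ.filter (fun i : Fin n => i.1 < 2 * Q), τ i)) c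
    (fun k x y => (C k + ∑ i, P k i * R k i (inst e x y i)).det)
    (by
      intro k
      obtain ⟨d, f, g, hd, hfg⟩ := RankAdditive.det_factor_sum (K := K) (S := S k)
        τ (C k) (P k) (fun x y i => R k i (inst e x y i)) I J hIJ
        (by
          intro i hi x y y'
          rw [inst_left e x y y' i]
          intro b hb
          simp only [I, mem_image, mem_univ, true_and] at hi
          obtain ⟨b', hb'⟩ := hi
          rw [← hb'] at hb
          have := e.injective hb
          simp at this)
        (by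
          intro i hi x x' y
          rw [inst_right e x x' y i]
          intro b hb
          simp only [J, mem_image, mem_univ, true_and] at hi
          obtain ⟨b', hb'⟩ := hi
          rw [← hb'] at hb
          have := e.injective hb
          simp at this)
        (by
          intro i hiI hiJ x x' y y'
          rw [inst_left e x y y' i, inst_right e x x' y' i]
          · intro b hb
            exact hiI (by rw [hb]; exact mem_image_of_mem _ (mem_univ b))
          · intro b hb
            exact hiJ (by rw [hb]; exact mem_image_of_mem _ (mem_univ b)))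
      exact ⟨d, f, g, hd.trans (Nat.pow_le_pow_right (by norm_num)
        (Finset.sum_le_sum_of_subset hsub)), hfg⟩)
    (by simpa using hcon)
  apply hα0
  refine tensor_nonsingular hk α fun y => ?_
  have h1 := hα y
  simp_rw [← h _ (inst_zero_one e _ y), permanent_inst] at h1
  have h2 : (2 : K) ^ Q ≠ 0 := pow_ne_zero _ hK
  have h3 : (2 : K) ^ Q * ∑ x, α x * ∏ b, (if x b = y b then (0 : K) else 1) = 0 := by
    refine Eq.trans ?_ h1
    rw [Finset.mul_sum]
    refine Finset.sum_congr rfl fun x _ => ?_
    ring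
  exact (mul_eq_zero.1 h3).resolve_left h2

end Pool.Agent.Lead.GadgetRank
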