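import Mathlib

open Finset

namespace Pool.Agent.Lead.Disjointness

variable {K : Type*} [Field K] [CharZero K] {n : ℕ}

/-- partial sums of `α` over the `r`-subsets containing `T` and avoiding `L`. -/
def g (r : ℕ) (α : Finset (Fin n) → K) (T L : Finset (Fin n)) : K :=
  ∑ J ∈ (powersetCard r (univ : Finset (Fin n))).filter (fun J => T ⊆ J ∧ Disjoint J L), α J

lemma step1 (r : ℕ) (h2 : 2 * r ≤ n) (α : Finset (Fin n) → K)
    (h : ∀ L : Finset (Fin n), L.card = r → g r α ∅ L = 0) :
    ∀ (k : ℕ) (L : Finset (Fin n)), L.card + k = r → g r α ∅ L = 0 := by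
  intro k
  induction k with
  | zero => intro L hL; exact h L (by simpa using hL)
  | succ k ih =>
    intro L hL
    have h1 : ∑ x ∈ Lᶜ, g r α ∅ (insert x L) = ((n - L.card - r : ℕ) : K) * g r α ∅ L := by
      unfold g
      have : ∀ x ∈ Lᶜ, ∑ J ∈ (powersetCard r (univ : Finset (Fin n))).filter
          (fun J => ∅ ⊆ J ∧ Disjoint J (insert x L)), α J
          = ∑ J ∈ (powersetCard r (univ : Finset (Fin n))).filter
          (fun J => ∅ ⊆ J ∧ Disjoint J L), if x ∉ J then α J else 0 := by
        intro x _
        rw [← Finset.sum_filter, Finset.filter_filter]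
        refine Finset.sum_congr ?_ fun _ _ => rfl
        ext J
        simp only [mem_filter, disjoint_insert_right, empty_subset, true_and]
        tauto
      rw [Finset.sum_congr rfl this, Finset.sum_comm, Finset.mul_sum]
      refine Finset.sum_congr rfl fun J hJ => ?_
      rw [← Finset.sum_filter, Finset.sum_const, nsmul_eq_mul]
      congr 2
      simp only [mem_filter, mem_powersetCard] at hJ
      have h3 : Lᶜ.filter (fun x => x ∉ J) = (L ∪ J)ᶜ := by
        ext x; simp
      rw [h3, card_compl, Fintype.card_fin, card_union_of_disjoint hJ.2.2.symm, hJ.1.2]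
      omega
    have h3 : ∑ x ∈ Lᶜ, g r α ∅ (insert x L) = 0 := by
      refine Finset.sum_eq_zero fun x hx => ih _ ?_
      rw [card_insert_of_notMem (by simpa using hx)]; omega
    rw [h3] at h1
    have h4 : ((n - L.card - r : ℕ) : K) ≠ 0 := by
      rw [Nat.cast_ne_zero]; omega
    rcases mul_eq_zero.1 h1.symm with h5 | h5
    · exact absurd h5 h4
    · exact h5

lemma step2 (r : ℕ) (α : Finset (Fin n) → K)
    (h : ∀ L : Finset (Fin n), L.card ≤ r → g r α ∅ L = 0) :
    ∀ (T L : Finset (Fin n)), Disjoint T L → T.card + L.card ≤ r → g r α T L = 0 := by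
  intro T
  induction T using Finset.induction_on with
  | empty => intro L _ hL; exact h L (by simpa using hL)
  | insert x T hx ih =>
    intro L hd hc
    rw [card_insert_of_notMem hx] at hc
    rw [disjoint_insert_left] at hd
    have h1 : g r α T L = g r α (insert x T) L + g r α T (insert x L) := by
      unfold g
      rw [← Finset.sum_union]
      · refine Finset.sum_congr ?_ fun _ _ => rfl
        ext J
        simp only [mem_filter, mem_union, insert_subset_iff, disjoint_insert_right]
        tauto
      · rw [Finset.disjoint_left]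
        intro J h1 h2
        simp only [mem_filter, insert_subset_iff, disjoint_insert_right] at h1 h2
        exact h2.2.2.1 h1.2.1.1
    have h2 : g r α T L = 0 := ih L hd.2 (by omega)
    have h3 : g r α T (insert x L) = 0 := by
      refine ih _ ?_ ?_
      · rw [disjoint_insert_right]; exact ⟨hx, hd.2⟩
      · rw [card_insert_of_notMem hd.1]; omega
    rw [h2, h3, add_zero] at h1
    exact h1.symm

/-- The disjointness matrix of the `r`-subsets of an `n`-set is nonsingular for `2 r ≤ n`. -/
theorem disjointness_nonsingular (r : ℕ) (h2 : 2 * r ≤ n) (α : Finset (Fin n) → K)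
    (h : ∀ L : Finset (Fin n), L.card = r →
      ∑ J ∈ (powersetCard r (univ : Finset (Fin n))), (if Disjoint J L then α J else 0) = 0) :
    ∀ J : Finset (Fin n), J.card = r → α J = 0 := by
  intro J hJ
  have h0 : ∀ L : Finset (Fin n), L.card = r → g r α ∅ L = 0 := by
    intro L hL
    unfold g
    rw [← h L hL, Finset.sum_filter]
    refine Finset.sum_congr rfl fun J _ => ?_
    simp
  have h1 : ∀ L : Finset (Fin n), L.card ≤ r → g r α ∅ L = 0 := fun L hL =>
    step1 r h2 α h0 (r - L.card) L (by omega)
  have h3 := step2 r α h1 J ∅ (by simp) (by simp [hJ])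
  unfold g at h3
  rw [Finset.sum_eq_single J] at h3
  · exact h3
  · intro J' hJ' hne
    simp only [mem_filter, mem_powersetCard] at hJ'
    exact absurd (Finset.eq_of_subset_of_card_le hJ'.2.1 (by rw [hJ'.1.2, hJ])).symm hne
  · intro hn
    exact absurd (by simp [mem_powersetCard, hJ]) hn

end Pool.Agent.Lead.Disjointness
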