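import Mathlib

open Finset

namespace Pool.Agent.Lead.MatchingInstances

/-- A perfect three-dimensional matching of the set of triples `(i, j, k)` with `X i j k = true`. -/
def HasMatching {n : ℕ} (X : Fin n → Fin n → Fin n → Bool) : Prop :=
  ∃ σ τ : Equiv.Perm (Fin n), ∀ i, X i (σ i) (τ i) = true

/-- pairs of disjoint `r`-subsets -/
def Pairs (n r : ℕ) : Type :=
  {q : Finset (Fin n) × Finset (Fin n) // q.1.card = r ∧ q.2.card = r ∧ Disjoint q.1 q.2}

instance (n r : ℕ) : Fintype (Pairs n r) := by unfold Pairs; infer_instance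
instance (n r : ℕ) : DecidableEq (Pairs n r) := by unfold Pairs; infer_instance

lemma card_pairs (n r : ℕ) : Fintype.card (Pairs n r) = n.choose r * (n - r).choose r := by
  have h1 : Fintype.card (Pairs n r)
      = ((powersetCard r (univ : Finset (Fin n))).sigma
          (fun A => powersetCard r Aᶜ)).card := by
    rw [← Fintype.card_coe]
    refine Fintype.card_congr
      { toFun := fun q => ⟨⟨q.1.1, q.1.2⟩, ?_⟩
        invFun := fun q => ⟨(q.1.1, q.1.2), ?_⟩
        left_inv := fun q => rfl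
        right_inv := fun q => rfl }
    · obtain ⟨⟨A, B⟩, h1, h2, h3⟩ := q
      simp only [mem_sigma, mem_powersetCard, subset_univ, true_and]
      refine ⟨h1, ?_, h2⟩
      rw [Finset.subset_compl_iff_disjoint_right]  
      exact h3.symm
    · obtain ⟨⟨A, B⟩, h⟩ := q
      simp only [mem_sigma, mem_powersetCard, subset_univ, true_and] at h
      refine ⟨h.1, h.2.2, ?_⟩
      have := Finset.subset_compl_iff_disjoint_right.1 h.2.1
      exact this.symm
  rw [h1, card_sigma]
  have h2 : ∀ A ∈ powersetCard r (univ : Finset (Fin n)), (powersetCard r Aᶜ).card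
      = (n - r).choose r := by
    intro A hA
    rw [mem_powersetCard] at hA
    rw [card_powersetCard, card_compl, Fintype.card_fin, hA.2]
  rw [sum_congr rfl h2, sum_const, card_powersetCard, card_univ, Fintype.card_fin, smul_eq_mul]

/-- The instance with left state `a` (slices `i < r`), right state `b` (slices `r ≤ i < 2 r`)
and diagonal slices elsewhere. -/
def inst {n r : ℕ} (a b : Pairs n r) : Fin n → Fin n → Fin n → Bool := fun i j k =>
  if h : i.1 < r then
    decide (j = a.1.1.orderEmbOfFin a.2.1 ⟨i.1, h⟩ ∧ k = a.1.2.orderEmbOfFin a.2.2.1 ⟨i.1, h⟩)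
  else if h2 : i.1 < 2 * r then
    decide (j = b.1.2.orderEmbOfFin b.2.2.1 ⟨i.1 - r, by omega⟩ ∧
      k = b.1.1.orderEmbOfFin b.2.1 ⟨i.1 - r, by omega⟩)
  else decide (j = k)

lemma mem_orderEmb {n r : ℕ} (A : Finset (Fin n)) (h : A.card = r) (x : Fin n) :
    x ∈ A ↔ ∃ i, A.orderEmbOfFin h i = x := by
  rw [← Finset.mem_coe, ← Finset.range_orderEmbOfFin A h]; rfl

lemma eq_of_hasMatching {n r : ℕ} (a b : Pairs n r) (h : HasMatching (inst a b)) : a = b := by
  obtain ⟨σ, τ, hX⟩ := h
  have hL : ∀ i : Fin n, ∀ h : i.1 < r, σ i = a.1.1.orderEmbOfFin a.2.1 ⟨i.1, h⟩ ∧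
      τ i = a.1.2.orderEmbOfFin a.2.2.1 ⟨i.1, h⟩ := by
    intro i h
    have := hX i
    simpa [inst, h] using this
  have hR : ∀ i : Fin n, ∀ h1 : ¬ i.1 < r, ∀ h2 : i.1 < 2 * r,
      σ i = b.1.2.orderEmbOfFin b.2.2.1 ⟨i.1 - r, by omega⟩ ∧
      τ i = b.1.1.orderEmbOfFin b.2.1 ⟨i.1 - r, by omega⟩ := by
    intro i h1 h2
    have := hX i
    simpa [inst, h1, h2] using this
  have hD : ∀ i : Fin n, ¬ i.1 < r → ¬ i.1 < 2 * r → σ i = τ i := by
    intro i h1 h2
    have := hX i
    simpa [inst, h1, h2] using this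
  have hdisj := Finset.disjoint_left.1 a.2.2.2
  -- injectivity of the left positions needs `r ≤ n`
  have hrn : r ≤ n := by
    calc r = a.1.1.card := a.2.1.symm
      _ ≤ (univ : Finset (Fin n)).card := card_le_card (subset_univ _)
      _ = n := by simp
  have h1 : a.1.1 ⊆ b.1.1 := by
    intro x hx
    obtain ⟨m, hm⟩ := (mem_orderEmb _ a.2.1 x).1 hx
    have hmn : m.1 < n := lt_of_lt_of_le m.2 hrn
    have hσ : σ ⟨m.1, hmn⟩ = x := by rw [(hL ⟨m.1, hmn⟩ m.2).1]; exact hm
    obtain ⟨i', hi'⟩ := τ.surjective x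
    by_cases c1 : i'.1 < r
    · exfalso
      rw [(hL i' c1).2] at hi'
      exact hdisj hx ((mem_orderEmb _ a.2.2.1 x).2 ⟨_, hi'⟩)
    · by_cases c2 : i'.1 < 2 * r
      · rw [(hR i' c1 c2).2] at hi'
        exact (mem_orderEmb _ b.2.1 x).2 ⟨_, hi'⟩
      · exfalso
        have h3 := hD i' c1 c2
        rw [hi', ← hσ] at h3
        have h4 := σ.injective h3
        apply c1
        rw [h4]; exact m.2
  have h2 : a.1.2 ⊆ b.1.2 := by
    intro x hx
    obtain ⟨m, hm⟩ := (mem_orderEmb _ a.2.2.1 x).1 hx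
    have hmn : m.1 < n := lt_of_lt_of_le m.2 hrn
    have hτ : τ ⟨m.1, hmn⟩ = x := by rw [(hL ⟨m.1, hmn⟩ m.2).2]; exact hm
    obtain ⟨i', hi'⟩ := σ.surjective x
    by_cases c1 : i'.1 < r
    · exfalso
      rw [(hL i' c1).1] at hi'
      exact hdisj ((mem_orderEmb _ a.2.1 x).2 ⟨_, hi'⟩) hx
    · by_cases c2 : i'.1 < 2 * r
      · rw [(hR i' c1 c2).1] at hi'
        exact (mem_orderEmb _ b.2.2.1 x).2 ⟨_, hi'⟩
      · exfalso
        have h3 := hD i' c1 c2
        rw [hi', ← hτ] at h3
        have h4 := τ.injective h3.symm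
        apply c1
        rw [h4]; exact m.2
  apply Subtype.ext
  apply Prod.ext
  · exact Finset.eq_of_subset_of_card_le h1 (by rw [a.2.1, b.2.1])
  · exact Finset.eq_of_subset_of_card_le h2 (by rw [a.2.2.1, b.2.2.1])

/-- the involution exchanging `i` and `r + i` for `i < r` -/
def swp {n r : ℕ} (h : 2 * r ≤ n) : Equiv.Perm (Fin n) :=
  Function.Involutive.toPerm
    (fun i : Fin n => if h1 : i.1 < r then ⟨i.1 + r, by omega⟩
      else if h2 : i.1 < 2 * r then ⟨i.1 - r, by omega⟩ else i)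
    (by
      intro i
      apply Fin.ext
      by_cases h1 : i.1 < r
      · simp only [h1, dif_pos]
        have h3 : ¬ (i.1 + r < r) := by omega
        have h4 : i.1 + r < 2 * r := by omega
        simp only [h3, h4, dif_pos, dif_neg, not_false_iff]
        omega
      · by_cases h2 : i.1 < 2 * r
        · have h3 : i.1 - r < r := by omega
          simp only [h1, h2, h3, dif_pos, dif_neg, not_false_iff]
          omega
        · simp only [h1, h2, dif_neg, not_false_iff])

lemma hasMatching_self {n r : ℕ} (h : 2 * r ≤ n) (a : Pairs n r) : HasMatching (inst a a) := by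
  classical
  let w : {i : Fin n // i.1 < 2 * r} → Fin n := fun i =>
    if h1 : i.1.1 < r then a.1.1.orderEmbOfFin a.2.1 ⟨i.1.1, h1⟩
    else a.1.2.orderEmbOfFin a.2.2.1 ⟨i.1.1 - r, by have := i.2; omega⟩
  have hdisj := Finset.disjoint_left.1 a.2.2.2
  have hw : Function.Injective w := by
    intro x y hxy
    simp only [w] at hxy
    by_cases h1 : x.1.1 < r <;> by_cases h2 : y.1.1 < r
    · simp only [h1, h2, dif_pos] at hxy
      have := (a.1.1.orderEmbOfFin a.2.1).injective hxy
      apply Subtype.ext; apply Fin.ext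
      simpa using this
    · simp only [h1, h2, dif_pos, dif_neg, not_false_iff] at hxy
      exact absurd (hdisj ((mem_orderEmb _ a.2.1 _).2 ⟨_, rfl⟩)
        ((mem_orderEmb _ a.2.2.1 _).2 ⟨_, hxy.symm⟩)) (by simp)
    · simp only [h1, h2, dif_pos, dif_neg, not_false_iff] at hxy
      exact absurd (hdisj ((mem_orderEmb _ a.2.1 _).2 ⟨_, rfl⟩)
        ((mem_orderEmb _ a.2.2.1 _).2 ⟨_, hxy⟩)) (by simp)
    · simp only [h1, h2, dif_neg, not_false_iff] at hxy
      have := (a.1.2.orderEmbOfFin a.2.2.1).injective hxy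
      have h3 := congrArg Fin.val this
      simp only at h3
      apply Subtype.ext; apply Fin.ext; omega
  obtain ⟨σ, hσ⟩ := Equiv.Perm.exists_extending_pair
    (fun i : {i : Fin n // i.1 < 2 * r} => i.1) w Subtype.val_injective hw
  refine ⟨σ, (swp h).trans σ, fun i => ?_⟩
  rw [Equiv.trans_apply]
  by_cases h1 : i.1 < r
  · have e1 : σ i = a.1.1.orderEmbOfFin a.2.1 ⟨i.1, h1⟩ := by
      have := hσ ⟨i, by omega⟩
      simpa [w, h1] using this
    have e2 : swp h i = ⟨i.1 + r, by omega⟩ := by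
      simp [swp, h1]
    have e3 : σ ⟨i.1 + r, by omega⟩ = a.1.2.orderEmbOfFin a.2.2.1 ⟨i.1, h1⟩ := by
      have := hσ ⟨⟨i.1 + r, by omega⟩, by simp; omega⟩
      simpa [w] using this
    simp only [inst, h1, dif_pos, e1, e2, e3]
    simp
  · by_cases h2 : i.1 < 2 * r
    · have e1 : σ i = a.1.2.orderEmbOfFin a.2.2.1 ⟨i.1 - r, by omega⟩ := by
        have := hσ ⟨i, h2⟩
        simpa [w, h1] using this
      have e2 : swp h i = ⟨i.1 - r, by omega⟩ := by
        simp [swp, h1, h2]
      have h3 : i.1 - r < r := by omega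
      have e3 : σ ⟨i.1 - r, by omega⟩ = a.1.1.orderEmbOfFin a.2.1 ⟨i.1 - r, h3⟩ := by
        have := hσ ⟨⟨i.1 - r, by omega⟩, by simp; omega⟩
        simpa [w, h3] using this
      simp only [inst, h1, h2, dif_pos, dif_neg, not_false_iff, e1, e2, e3]
      simp
    · have e2 : swp h i = i := by
        simp [swp, h1, h2]
      simp only [inst, h1, h2, dif_neg, not_false_iff, e2]
      simp

lemma hasMatching_iff {n r : ℕ} (h : 2 * r ≤ n) (a b : Pairs n r) :
    HasMatching (inst a b) ↔ a = b :=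
  ⟨eq_of_hasMatching a b, fun e => e ▸ hasMatching_self h a⟩

end Pool.Agent.Lead.MatchingInstances
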