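import Mathlib

/-!
# The midpoint Prekopa-Leindler inequality

`pl_midpoint`: if `f x * g y <= h ((x+y)/2) ^ 2` for all `x y : Fin n → ℝ` (measurable functions with
values in `[0, ∞]`) then `(∫⁻ f) * (∫⁻ g) <= (∫⁻ h) ^ 2`.
`bm_midpoint`: the version for sets (multiplicative Brunn-Minkowski for midpoints).
-/

open MeasureTheory Set Filter Topology
open scoped ENNReal Pointwise

namespace Pool.Agent.Lead.PL

/-- One dimensional Brunn-Minkowski inequality for midpoints. -/
theorem bm1 {A B D : Set ℝ} (hA : MeasurableSet A) (hB : MeasurableSet B)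
    (hAn : A.Nonempty) (hBn : B.Nonempty)
    (H : ∀ a ∈ A, ∀ b ∈ B, (a + b) / 2 ∈ D) :
    volume A + volume B ≤ 2 * volume D := by
  -- compact case
  have key : ∀ K L : Set ℝ, IsCompact K → IsCompact L → K.Nonempty → L.Nonempty →
      K ⊆ A → L ⊆ B → volume K + volume L ≤ 2 * volume D := by
    intro K L hK hL hKn hLn hKA hLB
    obtain ⟨a, haK, ha⟩ := hK.exists_isGreatest hKn
    obtain ⟨b, hbL, hb⟩ := hL.exists_isLeast hLn
    set K' : Set ℝ := (fun x => (x + b) / 2) '' K with hK'
    set L' : Set ℝ := (fun x => (a + x) / 2) '' L with hL'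
    have hKD : K' ⊆ D := by
      rintro _ ⟨x, hx, rfl⟩
      exact H x (hKA hx) b (hLB hbL)
    have hLD : L' ⊆ D := by
      rintro _ ⟨x, hx, rfl⟩
      exact H a (hKA haK) x (hLB hx)
    have hKm : IsCompact K' := hK.image (by fun_prop)
    have hLm : IsCompact L' := hL.image (by fun_prop)
    have himg : ∀ (S : Set ℝ) (c : ℝ), volume ((fun x => (x + c) / 2) '' S) = volume S / 2 := by
      intro S c
      have h1 : (fun x => (x + c) / 2) '' S = (fun x => x + c / 2) '' ((fun x => (1/2 : ℝ) • x) '' S) := by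
        rw [image_image]
        congr 1
        ext x
        simp only [smul_eq_mul]
        ring
      rw [h1, image_add_right, measure_preimage_add_right]
      rw [show ((fun x => (1/2 : ℝ) • x) '' S) = (1/2 : ℝ) • S from rfl]
      rw [Measure.addHaar_smul]
      simp only [Module.finrank_self, pow_one]
      rw [abs_of_pos (by norm_num : (0:ℝ) < 1/2)]
      rw [ENNReal.div_eq_inv_mul]
      congr 1
      rw [one_div, ENNReal.ofReal_inv_of_pos (by norm_num)]
      norm_num
    have e1 : volume K' = volume K / 2 := himg K b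
    have e2 : volume L' = volume L / 2 := by
      have : L' = (fun x => (x + a) / 2) '' L := by
        rw [hL']
        congr 1
        ext x
        ring
      rw [this]
      exact himg L a
    have hint : volume (K' ∩ L') = 0 := by
      have hsub : K' ∩ L' ⊆ {(a + b) / 2} := by
        rintro z ⟨⟨x, hx, rfl⟩, ⟨y, hy, hxy⟩⟩
        have h1 : x ≤ a := ha hx
        have h2 : b ≤ y := hb hy
        simp only [mem_singleton_iff]
        simp only at hxy
        linarith
      exact measure_mono_null hsub (measure_singleton _)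
    have hun : volume (K' ∪ L') = volume K' + volume L' := by
      have h := measure_union_add_inter (μ := volume) K' (t := L') hLm.measurableSet
      rw [hint, add_zero] at h
      exact h
    have h2 : volume K / 2 + volume L / 2 ≤ volume D := by
      rw [← e1, ← e2, ← hun]
      exact measure_mono (union_subset hKD hLD)
    calc volume K + volume L = 2 * (volume K / 2 + volume L / 2) := by
          rw [mul_add, ENNReal.mul_div_cancel (by norm_num) (by norm_num),
            ENNReal.mul_div_cancel (by norm_num) (by norm_num)]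
      _ ≤ 2 * volume D := by gcongr
  -- inner regularity
  obtain ⟨a0, ha0⟩ := hAn
  obtain ⟨b0, hb0⟩ := hBn
  have hAeq := hA.measure_eq_iSup_isCompact (μ := (volume : Measure ℝ))
  have hBeq := hB.measure_eq_iSup_isCompact (μ := (volume : Measure ℝ))
  rw [hAeq, hBeq]
  refine ENNReal.biSup_add_biSup_le' (p := fun K => K ⊆ A) (q := fun K => K ⊆ B) ⟨∅, empty_subset _⟩ ⟨∅, empty_subset _⟩ ?_
  intro K hKA L hLB
  have hgen : ∀ K L : Set ℝ, IsCompact K → IsCompact L → K ⊆ A → L ⊆ B →
      volume K + volume L ≤ 2 * volume D := by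
    intro K L hK hL hKA hLB
    have h := key (K ∪ {a0}) (L ∪ {b0}) (hK.union isCompact_singleton)
      (hL.union isCompact_singleton) ⟨a0, by simp⟩ ⟨b0, by simp⟩
      (union_subset hKA (by simpa using ha0)) (union_subset hLB (by simpa using hb0))
    refine le_trans ?_ h
    exact add_le_add (measure_mono subset_union_left) (measure_mono subset_union_left)
  by_cases hK : IsCompact K
  · by_cases hL : IsCompact L
    · simpa [hK, hL] using hgen K L hK hL hKA hLB
    · simpa [hK, hL] using hgen K ∅ hK isCompact_empty hKA (empty_subset _)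
  · by_cases hL : IsCompact L
    · simpa [hK, hL] using hgen ∅ L isCompact_empty hL (empty_subset _) hLB
    · simp [hK, hL]

/-- AM-GM in `ℝ≥0∞`: if `a + b ≤ 2 * c` then `a * b ≤ c ^ 2`. -/
theorem amgm {a b c : ℝ≥0∞} (h : a + b ≤ 2 * c) : a * b ≤ c ^ 2 := by
  rcases eq_or_ne c ⊤ with hc | hc
  · simp [hc]
  have hab : a + b ≠ ⊤ := ne_top_of_le_ne_top (ENNReal.mul_ne_top (by norm_num) hc) h
  have ha : a ≠ ⊤ := fun h => hab (by simp [h])
  have hb : b ≠ ⊤ := fun h => hab (by simp [h])
  lift a to NNReal using ha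
  lift b to NNReal using hb
  lift c to NNReal using hc
  have h' : a + b ≤ 2 * c := by exact_mod_cast h
  have h2 : (a : ℝ) + b ≤ 2 * c := by exact_mod_cast h'
  have : a * b ≤ c ^ 2 := by
    have ha0 : (0:ℝ) ≤ a := a.2
    have hb0 : (0:ℝ) ≤ b := b.2
    have hc0 : (0:ℝ) ≤ c := c.2
    have : (a : ℝ) * b ≤ (c:ℝ) ^ 2 := by nlinarith [sq_nonneg ((a:ℝ) - b)]
    exact_mod_cast this
  exact_mod_cast this

/-- One dimensional midpoint Prekopa-Leindler, functions with supremum one. -/
theorem pl1_norm {f g h : ℝ → ℝ} (hf : Measurable f) (hg : Measurable g) (hh : Measurable h)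
    (f0 : ∀ x, 0 ≤ f x) (g0 : ∀ x, 0 ≤ g x) (h0 : ∀ x, 0 ≤ h x)
    (f1 : ∀ x, f x ≤ 1) (g1 : ∀ x, g x ≤ 1)
    (fs : ∀ t < 1, ∃ x, t < f x) (gs : ∀ t < 1, ∃ x, t < g x)
    (H : ∀ x y, f x * g y ≤ h ((x + y) / 2) ^ 2) :
    (∫⁻ x, ENNReal.ofReal (f x)) + (∫⁻ x, ENNReal.ofReal (g x))
      ≤ 2 * ∫⁻ x, ENNReal.ofReal (h x) := by
  rw [lintegral_eq_lintegral_meas_lt volume (Eventually.of_forall f0) hf.aemeasurable,
    lintegral_eq_lintegral_meas_lt volume (Eventually.of_forall g0) hg.aemeasurable,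
    lintegral_eq_lintegral_meas_lt volume (Eventually.of_forall h0) hh.aemeasurable]
  have mf : Measurable (fun t => volume {a | t < f a}) :=
    Antitone.measurable (fun s t hst => measure_mono (fun a ha => lt_of_le_of_lt hst ha))
  have mh : Measurable (fun t => volume {a | t < h a}) :=
    Antitone.measurable (fun s t hst => measure_mono (fun a ha => lt_of_le_of_lt hst ha))
  rw [← lintegral_add_left mf, ← lintegral_const_mul 2 mh]
  refine setLIntegral_mono' measurableSet_Ioi ?_
  intro t ht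
  rcases lt_or_ge t 1 with h1 | h1
  · refine bm1 (measurableSet_lt measurable_const hf) (measurableSet_lt measurable_const hg)
      (fs t h1) (gs t h1) ?_
    intro a ha b hb
    simp only [mem_ofPred_eq] at ha hb ⊢
    have h2 := H a b
    have ht0 : (0:ℝ) < t := ht
    by_contra hcon
    push Not at hcon
    have h3 : h ((a + b) / 2) ^ 2 ≤ t ^ 2 := by
      have := h0 ((a + b) / 2)
      exact pow_le_pow_left₀ this hcon 2
    have h4 : t * t < f a * g b := mul_lt_mul'' ha hb ht0.le ht0.le
    nlinarith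
  · have e1 : {a | t < f a} = ∅ := by
      ext a
      simp only [mem_ofPred_eq, mem_empty_iff_false, iff_false, not_lt]
      exact (f1 a).trans h1
    have e2 : {a | t < g a} = ∅ := by
      ext a
      simp only [mem_ofPred_eq, mem_empty_iff_false, iff_false, not_lt]
      exact (g1 a).trans h1
    simp [e1, e2]


/-- One dimensional midpoint Prekopa-Leindler, bounded functions. -/
theorem pl1_bdd {f g h : ℝ → ℝ≥0∞} (hf : Measurable f) (hg : Measurable g) (hh : Measurable h)
    {M : ℝ≥0∞} (hM : M ≠ ⊤) (fM : ∀ x, f x ≤ M) (gM : ∀ x, g x ≤ M)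
    (H : ∀ x y, f x * g y ≤ h ((x + y) / 2) ^ 2) :
    (∫⁻ x, f x) * (∫⁻ x, g x) ≤ (∫⁻ x, h x) ^ 2 := by
  set a : ℝ≥0∞ := ⨆ x, f x with ha
  set b : ℝ≥0∞ := ⨆ x, g x with hb
  have haM : a ≤ M := iSup_le fM
  have hbM : b ≤ M := iSup_le gM
  have hat : a ≠ ⊤ := ne_top_of_le_ne_top hM haM
  have hbt : b ≠ ⊤ := ne_top_of_le_ne_top hM hbM
  rcases eq_or_ne a 0 with ha0 | ha0
  · have : ∀ x, f x = 0 := fun x => le_antisymm (ha0 ▸ le_iSup f x) bot_le
    simp [this]
  rcases eq_or_ne b 0 with hb0 | hb0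
  · have : ∀ x, g x = 0 := fun x => le_antisymm (hb0 ▸ le_iSup g x) bot_le
    simp [this]
  have hfa : ∀ x, f x ≤ a := fun x => le_iSup f x
  have hgb : ∀ x, g x ≤ b := fun x => le_iSup g x
  obtain ⟨c, hc0, hct, hcc⟩ : ∃ c : ℝ≥0∞, c ≠ 0 ∧ c ≠ ⊤ ∧ c * c = a * b := by
    refine ⟨(a * b) ^ (1/2 : ℝ), ?_, ?_, ?_⟩
    · simp [ENNReal.rpow_eq_zero_iff, ha0, hb0]
    · exact ENNReal.rpow_ne_top_of_nonneg (by norm_num) (ENNReal.mul_ne_top hat hbt)
    · rw [← ENNReal.rpow_add_of_nonneg _ _ (by norm_num) (by norm_num)]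
      norm_num
  set f' : ℝ → ℝ := fun x => (f x / a).toReal with hf'
  set g' : ℝ → ℝ := fun x => (g x / b).toReal with hg'
  set h' : ℝ → ℝ := fun x => (min (h x / c) 1).toReal with hh'
  have f'le : ∀ x, f x / a ≤ 1 := fun x => ENNReal.div_le_of_le_mul (by simpa using hfa x)
  have g'le : ∀ x, g x / b ≤ 1 := fun x => ENNReal.div_le_of_le_mul (by simpa using hgb x)
  have f'nt : ∀ x, f x / a ≠ ⊤ := fun x => ne_top_of_le_ne_top (by norm_num) (f'le x)
  have g'nt : ∀ x, g x / b ≠ ⊤ := fun x => ne_top_of_le_ne_top (by norm_num) (g'le x)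
  have h'nt : ∀ x, min (h x / c) 1 ≠ ⊤ := fun x => ne_top_of_le_ne_top (by norm_num) (min_le_right _ _)
  have sup_ex : ∀ (u : ℝ → ℝ≥0∞) (m : ℝ≥0∞), m ≠ 0 → m ≠ ⊤ → m = ⨆ x, u x → (∀ x, u x / m ≠ ⊤) →
      ∀ t < (1:ℝ), ∃ x, t < (u x / m).toReal := by
    intro u m hm0 hmt hm hnt t ht
    rcases lt_or_ge t 0 with h0 | h0
    · exact ⟨0, lt_of_lt_of_le h0 ENNReal.toReal_nonneg⟩
    · have : ENNReal.ofReal t * m < ⨆ x, u x := by
        rw [← hm]
        have : ENNReal.ofReal t < 1 := by
          rw [ENNReal.ofReal_lt_one]; exact ht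
        calc ENNReal.ofReal t * m < 1 * m := by
              exact ENNReal.mul_lt_mul_left hm0 hmt this
          _ = m := one_mul _
      obtain ⟨x, hx⟩ := lt_iSup_iff.1 this
      refine ⟨x, ?_⟩
      rw [← ENNReal.ofReal_lt_iff_lt_toReal h0 (hnt x)]
      rw [ENNReal.lt_div_iff_mul_lt (Or.inl hm0) (Or.inl hmt)]
      exact hx
  have main := pl1_norm (f := f') (g := g') (h := h') (by fun_prop) (by fun_prop) (by fun_prop)
    (fun x => ENNReal.toReal_nonneg) (fun x => ENNReal.toReal_nonneg)
    (fun x => ENNReal.toReal_nonneg)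
    (fun x => by
      have h := ENNReal.toReal_mono (by norm_num) (f'le x)
      rw [ENNReal.toReal_one] at h
      exact h)
    (fun x => by
      have h := ENNReal.toReal_mono (by norm_num) (g'le x)
      rw [ENNReal.toReal_one] at h
      exact h)
    (sup_ex f a ha0 hat ha f'nt) (sup_ex g b hb0 hbt hb g'nt)
    (by
      intro x y
      simp only [hf', hg', hh']
      rw [← ENNReal.toReal_mul, ← ENNReal.toReal_pow]
      refine ENNReal.toReal_mono (ENNReal.pow_ne_top (h'nt _)) ?_
      rcases le_total (h ((x + y) / 2) / c) 1 with hle | hle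
      · rw [min_eq_left hle]
        have h1 := H x y
        calc f x / a * (g y / b) = (f x * g y) / (a * b) := by
              rw [ENNReal.div_eq_inv_mul, ENNReal.div_eq_inv_mul, ENNReal.div_eq_inv_mul,
                ENNReal.mul_inv (Or.inl ha0) (Or.inl hat)]
              ring
          _ ≤ (h ((x + y) / 2) ^ 2) / (a * b) := by gcongr
          _ = (h ((x + y) / 2) / c) ^ 2 := by
              rw [← hcc, ENNReal.div_eq_inv_mul, ENNReal.div_eq_inv_mul,
                ENNReal.mul_inv (Or.inl hc0) (Or.inl hct)]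
              ring
      · rw [min_eq_right hle]
        calc f x / a * (g y / b) ≤ 1 * 1 := mul_le_mul' (f'le x) (g'le y)
          _ = 1 ^ 2 := by norm_num)
  have e1 : (∫⁻ x, ENNReal.ofReal (f' x)) = (∫⁻ x, f x) / a := by
    simp only [hf']
    rw [ENNReal.div_eq_inv_mul, ← lintegral_const_mul _ hf]
    refine lintegral_congr (fun x => ?_)
    rw [ENNReal.ofReal_toReal (f'nt x), ENNReal.div_eq_inv_mul]
  have e2 : (∫⁻ x, ENNReal.ofReal (g' x)) = (∫⁻ x, g x) / b := by
    simp only [hg']
    rw [ENNReal.div_eq_inv_mul, ← lintegral_const_mul _ hg]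
    refine lintegral_congr (fun x => ?_)
    rw [ENNReal.ofReal_toReal (g'nt x), ENNReal.div_eq_inv_mul]
  have e3 : (∫⁻ x, ENNReal.ofReal (h' x)) ≤ (∫⁻ x, h x) / c := by
    simp only [hh']
    rw [ENNReal.div_eq_inv_mul, ← lintegral_const_mul _ hh]
    refine lintegral_mono (fun x => ?_)
    rw [ENNReal.ofReal_toReal (h'nt x), ← ENNReal.div_eq_inv_mul]
    exact min_le_left _ _
  rw [e1, e2] at main
  have main2 := amgm (main.trans (mul_le_mul_right e3 2))
  have hab0 : a * b ≠ 0 := mul_ne_zero ha0 hb0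
  have habt : a * b ≠ ⊤ := ENNReal.mul_ne_top hat hbt
  calc (∫⁻ x, f x) * (∫⁻ x, g x)
      = (a * b) * (((∫⁻ x, f x) / a) * ((∫⁻ x, g x) / b)) := by
        have e : (a * b) * (((∫⁻ x, f x) / a) * ((∫⁻ x, g x) / b))
            = (a * ((∫⁻ x, f x) / a)) * (b * ((∫⁻ x, g x) / b)) := by ring
        rw [e, ENNReal.mul_div_cancel ha0 hat, ENNReal.mul_div_cancel hb0 hbt]
    _ ≤ (a * b) * ((∫⁻ x, h x) / c) ^ 2 := by gcongr
    _ = (c * ((∫⁻ x, h x) / c)) ^ 2 := by rw [← hcc]; ring
    _ = (∫⁻ x, h x) ^ 2 := by rw [ENNReal.mul_div_cancel hc0 hct]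

theorem lintegral_eq_iSup_min {α : Type*} [MeasurableSpace α] (μ : Measure α) {f : α → ℝ≥0∞}
    (hf : Measurable f) : (∫⁻ x, f x ∂μ) = ⨆ k : ℕ, ∫⁻ x, min (f x) k ∂μ := by
  rw [← lintegral_iSup (fun k => hf.min measurable_const)]
  · refine lintegral_congr (fun x => ?_)
    refine le_antisymm ?_ (iSup_le fun k => min_le_left _ _)
    rcases eq_or_ne (f x) ⊤ with h | h
    · simp only [h, le_top, inf_of_le_right]
      rw [ENNReal.iSup_natCast]
    · obtain ⟨k, hk⟩ := ENNReal.exists_nat_gt h
      refine le_iSup_of_le k ?_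
      rw [min_eq_left hk.le]
  · intro i j hij x
    exact min_le_min_left _ (by exact_mod_cast hij)

/-- One dimensional midpoint Prekopa-Leindler inequality. -/
theorem pl1 {f g h : ℝ → ℝ≥0∞} (hf : Measurable f) (hg : Measurable g) (hh : Measurable h)
    (H : ∀ x y, f x * g y ≤ h ((x + y) / 2) ^ 2) :
    (∫⁻ x, f x) * (∫⁻ x, g x) ≤ (∫⁻ x, h x) ^ 2 := by
  rw [lintegral_eq_iSup_min volume hf, lintegral_eq_iSup_min volume hg, ENNReal.iSup_mul]
  refine iSup_le fun k => ?_
  rw [ENNReal.mul_iSup]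
  refine iSup_le fun l => ?_
  refine pl1_bdd (M := max k l) (hf.min measurable_const) (hg.min measurable_const) hh ?_ ?_ ?_ ?_
  · simp [max_def]
    split_ifs <;> simp
  · intro x
    exact (min_le_right _ _).trans (le_max_left _ _)
  · intro x
    exact (min_le_right _ _).trans (le_max_right _ _)
  · intro x y
    exact (mul_le_mul' (min_le_left _ _) (min_le_left _ _)).trans (H x y)


theorem symm_eq_cons {n : ℕ} (p : ℝ × (Fin n → ℝ)) :
    (MeasurableEquiv.piFinSuccAbove (fun _ : Fin (n + 1) => ℝ) 0).symm p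
      = (Fin.cons p.1 p.2 : Fin (n + 1) → ℝ) := by
  rw [MeasurableEquiv.symm_apply_eq]
  ext i
  · simp [MeasurableEquiv.piFinSuccAbove, Fin.insertNthEquiv]
  · simp [MeasurableEquiv.piFinSuccAbove, Fin.insertNthEquiv]

/-- The midpoint Prekopa-Leindler inequality in `Fin n → ℝ`. -/
theorem pl_midpoint : ∀ (n : ℕ) {f g h : (Fin n → ℝ) → ℝ≥0∞}, Measurable f → Measurable g →
    Measurable h → (∀ x y, f x * g y ≤ h (fun i => (x i + y i) / 2) ^ 2) →
    (∫⁻ x, f x) * (∫⁻ x, g x) ≤ (∫⁻ x, h x) ^ 2
  | 0, f, g, h, hf, hg, hh, H => by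
      have e : ∀ u : (Fin 0 → ℝ) → ℝ≥0∞, (∫⁻ x, u x) = u default := by
        intro u
        have hv : (volume : Measure (Fin 0 → ℝ)) = Measure.dirac default := by
          rw [volume_pi, Measure.pi_of_empty (x := default)]
        rw [hv, lintegral_dirac]
      rw [e, e, e]
      have := H default default
      convert this using 3
  | n + 1, f, g, h, hf, hg, hh, H => by
      have e : ∀ u : (Fin (n + 1) → ℝ) → ℝ≥0∞, Measurable u →
          (∫⁻ x, u x) = ∫⁻ s : ℝ, ∫⁻ v : Fin n → ℝ, u (Fin.cons s v) := by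
        intro u hu
        have hmp := volume_preserving_piFinSuccAbove (fun _ : Fin (n + 1) => ℝ) 0
        rw [← hmp.symm.lintegral_comp hu]
        rw [Measure.volume_eq_prod, lintegral_prod _ (by
          exact (hu.comp (MeasurableEquiv.measurable _)).aemeasurable)]
        simp only [symm_eq_cons]
      have mk : ∀ u : (Fin (n + 1) → ℝ) → ℝ≥0∞, Measurable u →
          Measurable (fun p : ℝ × (Fin n → ℝ) => u (Fin.cons p.1 p.2)) := by
        intro u hu
        have h1 := hu.comp (MeasurableEquiv.piFinSuccAbove (fun _ : Fin (n + 1) => ℝ) 0).symm.measurable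
        have h2 : (fun p : ℝ × (Fin n → ℝ) => u (Fin.cons p.1 p.2))
            = u ∘ (MeasurableEquiv.piFinSuccAbove (fun _ : Fin (n + 1) => ℝ) 0).symm := by
          ext p
          simp only [Function.comp_apply, symm_eq_cons]
        rw [h2]
        exact h1
      rw [e f hf, e g hg, e h hh]
      refine pl1 (mk f hf).lintegral_prod_right' (mk g hg).lintegral_prod_right'
        (mk h hh).lintegral_prod_right' ?_
      intro s t
      refine pl_midpoint n ((mk f hf).comp measurable_prodMk_left)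
        ((mk g hg).comp measurable_prodMk_left) ((mk h hh).comp measurable_prodMk_left) ?_
      intro x y
      have h1 := H (Fin.cons s x) (Fin.cons t y)
      refine h1.trans (le_of_eq ?_)
      congr 2
      ext i
      refine Fin.cases ?_ (fun j => ?_) i
      · simp
      · simp

/-- Multiplicative Brunn-Minkowski inequality for midpoints, with a set `D` containing all
midpoints. -/
theorem bm_midpoint {n : ℕ} {A B D : Set (Fin n → ℝ)} (hA : MeasurableSet A)
    (hB : MeasurableSet B) (hD : MeasurableSet D)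
    (H : ∀ a ∈ A, ∀ b ∈ B, (fun i => (a i + b i) / 2) ∈ D) :
    volume A * volume B ≤ volume D ^ 2 := by
  have h := pl_midpoint n (f := A.indicator 1) (g := B.indicator 1) (h := D.indicator 1)
    (measurable_one.indicator hA) (measurable_one.indicator hB) (measurable_one.indicator hD) ?_
  · simpa [lintegral_indicator_one, hA, hB, hD] using h
  · intro x y
    by_cases hx : x ∈ A
    · by_cases hy : y ∈ B
      · have := H x hx y hy
        simp [indicator_of_mem, hx, hy, this]
      · simp [hy]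
    · simp [hx]

end Pool.Agent.Lead.PL
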